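import Pool.Agent.Lib.MP_33b3f9_ag.MG.B2.EvZ

/-!
The integral action of the order generated by `z` and its conjugate.
-/

set_option autoImplicit false
set_option linter.unusedSectionVars false

noncomputable section

namespace MG.B2

open Matrix Polynomial

variable [Dim] {e : ℕ} {a b : MZ} {m n : ℕ}

theorem acta_mul (g h : MZ) : adj (g * h) = adj h * adj g := by
  unfold adj
  rw [transpose_mul, neg_mul_neg]
  calc -(J ι ℤ * (hᵀ * gᵀ) * J ι ℤ) = J ι ℤ * hᵀ * (-1 : MZ) * gᵀ * J ι ℤ := by noncomm_ring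
    _ = _ := by rw [← J_squared]; noncomm_ring

theorem acta_add (g h : MZ) : adj (g + h) = adj g + adj h := by
  unfold adj
  rw [transpose_add]
  noncomm_ring

theorem acta_one : adj (1 : MZ) = 1 := by
  unfold adj
  rw [transpose_one, Matrix.mul_one, J_squared, neg_neg]

theorem acta_adj (g : MZ) : adj (adj g) = g := by
  unfold adj
  rw [transpose_neg, transpose_mul, transpose_mul, transpose_transpose, J_transpose]
  calc _ = J ι ℤ * J ι ℤ * g * (J ι ℤ * J ι ℤ) := by noncomm_ring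
    _ = g := by rw [J_squared]; noncomm_ring

theorem acta_int (k : ℤ) : adj (k : MZ) = k := by
  let f : MZ →+ MZ := AddMonoidHom.mk' adj acta_add
  have := map_zsmul f k 1
  simp only [f, AddMonoidHom.mk'_apply, acta_one, zsmul_one] at this
  exact this

theorem acta_sim (D : PD e a b m n) : adj a * a = m := by
  unfold adj
  have h := D.pel.aJ
  calc -(J ι ℤ * aᵀ * J ι ℤ) * a = -(J ι ℤ * (aᵀ * J ι ℤ * a)) := by noncomm_ring
    _ = m := by
      rw [h, Matrix.mul_smul, J_squared, smul_neg, neg_neg, zsmul_one, Int.cast_natCast]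

theorem acta_inj : Function.Injective ((Int.castRingHom ℚ).mapMatrix : MZ →+* Matrix ν ν ℚ) :=
  fun _ _ h => Matrix.map_injective Int.cast_injective h

theorem acta_bar (D : PD e a b m n) (x : D.E) : D.bar (D.bar x) = x := by
  obtain ⟨j⟩ : Nonempty (D.E →+* ℂ) := inferInstance
  exact j.injective (by rw [D.conj, D.conj, Complex.conj_conj])

theorem acta_barz (D : PD e a b m n) : D.φ (D.bar D.z) = zM ℚ (adj a) := by
  have hm : (m : D.E) ≠ 0 := Nat.cast_ne_zero.2 D.pel.m0.ne'
  have hz : D.z ≠ 0 := fun h => hm (by rw [← D.mul, h, mul_zero])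
  have h1 : D.φ (D.bar D.z) * D.φ D.z = zM ℚ (adj a) * D.φ D.z := by
    have h2 := congrArg ((Int.castRingHom ℚ).mapMatrix : MZ →+* Matrix ν ν ℚ) (acta_sim D)
    rw [map_mul, map_natCast] at h2
    rw [← map_mul, D.mul, map_natCast, D.φz]
    exact h2.symm
  have h3 := congrArg (· * D.φ D.z⁻¹) h1
  simp only [← map_mul, mul_assoc, mul_inv_cancel₀ hz, map_one, mul_one] at h3
  exact h3

theorem exists_act (D : PD e a b m n) : ∃ (ψ : D.A →+* MZ) (bar : D.A →+* D.A) (za : D.A),
    (∀ x, zM ℚ (ψ x) = D.φ x) ∧ ψ za = a ∧ (∀ x, ψ (bar x) = adj (ψ x)) ∧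
    Algebra.adjoin ℤ {za, bar za} = ⊤ ∧ (∀ x, bar (bar x) = x) ∧ bar za * za = m ∧
    ∀ (R : Type) [CommRing R] [IsDomain R] [CharZero R] (π : Matrix ν ν R),
      Commute (zM R a) π → ∀ x, Commute (zM R (ψ x)) π := by
  obtain ⟨F, hF⟩ : ∃ F : MZ →+* Matrix ν ν ℚ, F = (Int.castRingHom ℚ).mapMatrix := ⟨_, rfl⟩
  have Fi : Function.Injective F := hF ▸ acta_inj
  have Fz : ∀ g, F g = zM ℚ g := fun g => hF ▸ rfl
  have h1 : ∀ x ∈ D.A, D.φ x ∈ F.range ∧ D.bar x ∈ D.A := fun x hx => by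
    induction hx using Algebra.adjoin_induction with
    | mem x hx =>
      rcases hx with rfl | rfl
      · exact ⟨⟨a, (Fz a).trans D.φz.symm⟩, Algebra.subset_adjoin (Or.inr rfl)⟩
      · exact ⟨⟨adj a, (Fz _).trans (acta_barz D).symm⟩,
          (acta_bar D D.z).symm ▸ Algebra.subset_adjoin (Or.inl rfl)⟩
    | algebraMap k =>
      rw [eq_intCast, map_intCast, map_intCast]
      exact ⟨intCast_mem _ k, intCast_mem _ k⟩
    | add x y _ _ hx hy =>
      rw [map_add, map_add]
      exact ⟨add_mem hx.1 hy.1, add_mem hx.2 hy.2⟩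
    | mul x y _ _ hx hy =>
      rw [map_mul, map_mul]
      exact ⟨mul_mem hx.1 hy.1, mul_mem hx.2 hy.2⟩
  obtain ⟨ψ, hψ⟩ : ∃ ψ : D.A →+* MZ, ∀ x, F (ψ x) = D.φ x := by
    let G := RingEquiv.ofBijective F.rangeRestrict
      ⟨fun x y h => Fi (congrArg Subtype.val h), F.rangeRestrict_surjective⟩
    refine ⟨G.symm.toRingHom.comp ((D.φ.comp D.A.val.toRingHom).codRestrict F.range
      fun x => (h1 x x.2).1), fun x => ?_⟩
    exact congrArg Subtype.val (G.apply_symm_apply _)
  obtain ⟨bar, hb⟩ : ∃ bar : D.A →+* D.A, ∀ x, (bar x : D.E) = D.bar x :=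
    ⟨(D.bar.toRingHom.comp D.A.val.toRingHom).codRestrict D.A fun x => (h1 x x.2).2, fun _ => rfl⟩
  obtain ⟨za, hza⟩ : ∃ za : D.A, (za : D.E) = D.z := ⟨⟨_, Algebra.subset_adjoin (Or.inl rfl)⟩, rfl⟩
  have p1 : ψ za = a := Fi (by rw [hψ, hza, D.φz, Fz])
  have p2 : ψ (bar za) = adj a := Fi (by rw [hψ, hb, hza, acta_barz, Fz])
  have p3 : ∀ x, bar (bar x) = x := fun x => Subtype.ext (by rw [hb, hb, acta_bar])
  have p4 : Algebra.adjoin ℤ {za, bar za} = ⊤ := by
    refine Subalgebra.map_injective (f := D.A.val) Subtype.val_injective ?_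
    rw [AlgHom.map_adjoin, Algebra.map_top, Subalgebra.range_val, Set.image_pair]
    change Algebra.adjoin ℤ {(za : D.E), (bar za : D.E)} = _
    rw [hb, hza, PD.A]
  have ind : ∀ P : D.A → Prop, P za → P (bar za) → (∀ k : ℤ, P k) →
      (∀ x y, P x → P y → P (x + y)) → (∀ x y, P x → P y → P (x * y)) → ∀ x, P x :=
    fun P a1 a2 a3 a4 a5 x => by
      have hx : x ∈ Algebra.adjoin ℤ {za, bar za} := p4 ▸ Algebra.mem_top
      induction hx using Algebra.adjoin_induction with
      | mem x hx => rcases hx with rfl | rfl <;> assumption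
      | algebraMap k => exact (eq_intCast (algebraMap ℤ D.A) k).symm ▸ a3 k
      | add x y _ _ hx hy => exact a4 x y hx hy
      | mul x y _ _ hx hy => exact a5 x y hx hy
  refine ⟨ψ, bar, za, fun x => (Fz _).symm.trans (hψ x), p1, ind _ (p2.trans (congrArg adj p1.symm)) ?_
    (fun k => ?_)
    (fun x y hx hy => ?_) (fun x y hx hy => ?_), p4, p3, Subtype.ext ?_, fun R _ _ _ π h => ?_⟩
  · rw [p3, p2, acta_adj, p1]
  · rw [map_intCast, map_intCast, acta_int]
  · rw [map_add, map_add, map_add, acta_add, hx, hy]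
  · rw [map_mul, map_mul, hx, hy, mul_comm x y, map_mul, acta_mul]
  · rw [Subalgebra.coe_mul, hb, hza, D.mul]
    simp
  obtain ⟨G, hG⟩ : ∃ G : MZ →+* Matrix ν ν R, ∀ g, zM R g = G g :=
    ⟨(Int.castRingHom R).mapMatrix, fun _ => rfl⟩
  have q1 : G (adj a) * G a = m := by rw [← map_mul, acta_sim D, map_natCast]
  have q2 : G a * G (adj a) = m := by
    have q3 : ψ za * ψ (bar za) = ψ (bar za) * ψ za := by rw [← map_mul, mul_comm, map_mul]
    rw [p1, p2] at q3
    rw [← map_mul, q3, acta_sim D, map_natCast]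
  simp only [hG] at h ⊢
  refine ind _ (by rw [p1]; exact h) ?_ (fun k => ?_) (fun x y hx hy => ?_) fun x y hx hy => ?_
  · have hm : (m : R) ≠ 0 := Nat.cast_ne_zero.2 D.pel.m0.ne'
    rw [p2]
    refine smul_right_injective _ hm ?_
    change (m : R) • (G (adj a) * π) = (m : R) • (π * G (adj a))
    rw [Nat.cast_smul_eq_nsmul, Nat.cast_smul_eq_nsmul, nsmul_eq_mul', nsmul_eq_mul]
    calc _ = G (adj a) * π * (G a * G (adj a)) := by rw [q2]
      _ = G (adj a) * (π * G a) * G (adj a) := by noncomm_ring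
      _ = G (adj a) * G a * (π * G (adj a)) := by rw [← h.eq]; noncomm_ring
      _ = _ := by rw [q1]
  · rw [map_intCast, map_intCast]
    exact Int.cast_commute k π
  · rw [map_add, map_add]
    exact hx.add_left hy
  · rw [map_mul, map_mul]
    exact hx.mul_left hy

end MG.B2
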