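import Pool.Agent.Lib.MP_33b3f9_ag.M4.B2.Ad
import Pool.Agent.Lib.MP_33b3f9_ag.MG.Mor

/-!
The adelic symplectic space.
-/

set_option autoImplicit false
set_option linter.unusedSectionVars false

namespace MG.B2

open M4 M4.B2

open Matrix

noncomputable section

variable [Dim]

/-- The adelic vector space. -/
abbrev VA : Type := ν → Af

/-- The integral adelic vectors. -/
def TA : AddSubgroup VA := AddSubgroup.pi Set.univ fun _ => Zh.toAddSubgroup

theorem mem_TA {x : VA} : x ∈ TA ↔ ∀ i, x i ∈ Zh := by simp [TA, AddSubgroup.mem_pi]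

/-- The symplectic form over a commutative ring. -/
def EB {R : Type} [CommRing R] (x y : ν → R) : R :=
  ∑ i, (x (Sum.inl i) * y (Sum.inr i) - x (Sum.inr i) * y (Sum.inl i))

section
variable {R : Type} [CommRing R]

theorem EB_add_left (x y z : ν → R) : EB (x + y) z = EB x z + EB y z := by
  simp only [EB, Pi.add_apply, ← Finset.sum_add_distrib]
  exact Finset.sum_congr rfl fun i _ => by ring

theorem EB_add_right (x y z : ν → R) : EB x (y + z) = EB x y + EB x z := by
  simp only [EB, Pi.add_apply, ← Finset.sum_add_distrib]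
  exact Finset.sum_congr rfl fun i _ => by ring

theorem EB_smul_left (c : R) (x y : ν → R) : EB (c • x) y = c * EB x y := by
  simp only [EB, Pi.smul_apply, smul_eq_mul, Finset.mul_sum]
  exact Finset.sum_congr rfl fun i _ => by ring

theorem EB_smul_right (c : R) (x y : ν → R) : EB x (c • y) = c * EB x y := by
  simp only [EB, Pi.smul_apply, smul_eq_mul, Finset.mul_sum]
  exact Finset.sum_congr rfl fun i _ => by ring

theorem EB_swap (x y : ν → R) : EB y x = -EB x y := by
  simp only [EB, ← Finset.sum_neg_distrib]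
  exact Finset.sum_congr rfl fun i _ => by ring

@[simp] theorem EB_self (x : ν → R) : EB x x = 0 := by
  simp only [EB]; exact Finset.sum_eq_zero fun i _ => by ring

@[simp] theorem EB_zero_left (x : ν → R) : EB 0 x = 0 := by simp [EB]

@[simp] theorem EB_zero_right (x : ν → R) : EB x 0 = 0 := by simp [EB]

theorem EB_neg_left (x y : ν → R) : EB (-x) y = -EB x y := by
  simpa using EB_smul_left (-1) x y

theorem EB_neg_right (x y : ν → R) : EB x (-y) = -EB x y := by
  simpa using EB_smul_right (-1) x y

theorem EB_sub_left (x y z : ν → R) : EB (x - y) z = EB x z - EB y z := by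
  rw [sub_eq_add_neg, EB_add_left, EB_neg_left, sub_eq_add_neg]

theorem EB_sub_right (x y z : ν → R) : EB x (y - z) = EB x y - EB x z := by
  rw [sub_eq_add_neg, EB_add_right, EB_neg_right, sub_eq_add_neg]

theorem map_EB {S F : Type} [CommRing S] [FunLike F R S] [RingHomClass F R S] (f : F)
    (x y : ν → R) : f (EB x y) = EB (fun i => f (x i)) (fun i => f (y i)) := by
  simp [EB]

end

theorem EB_mem {x y : VA} (hx : x ∈ TA) (hy : y ∈ TA) : EB x y ∈ Zh :=
  Zh.sum_mem fun _ _ => Zh.sub_mem (Zh.mul_mem (mem_TA.1 hx _) (mem_TA.1 hy _))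
    (Zh.mul_mem (mem_TA.1 hx _) (mem_TA.1 hy _))

theorem exists_nsmul_mem_TA (x : VA) : ∃ N : ℕ, 0 < N ∧ N • x ∈ TA := by
  choose N hN h using fun i => exists_nsmul_mem (x i)
  refine ⟨∏ i, N i, Finset.prod_pos fun i _ => hN i, mem_TA.2 fun i => ?_⟩
  obtain ⟨c, hc⟩ := Finset.dvd_prod_of_mem N (Finset.mem_univ i)
  rw [hc, Pi.smul_apply, nsmul_eq_mul, Nat.cast_mul, mul_comm (N i : Af), mul_assoc]
  exact Zh.mul_mem (natCast_mem Zh c) (h i)

/-- A rational vector as an adelic vector. -/
def qV (q : ν → ℚ) : VA := fun i => qA (q i)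

/-- A rational vector congruent to `x` modulo the integral vectors. -/
def ratV (x : VA) : ν → ℚ := fun i => rat (x i)

theorem ratV_spec (x : VA) : x - qV (ratV x) ∈ TA := mem_TA.2 fun i => rat_spec (x i)

/-- The component of an adelic vector at `l`. -/
def cV (l : Nat.Primes) (x : VA) : ν → ℚ_[l] := fun i => cp l (x i)

/-- An `l`-adic vector as an adelic vector. -/
def iV (l : Nat.Primes) : (ν → ℚ_[l]) →+ VA where
  toFun s i := inc l (s i)
  map_zero' := by funext i; simp
  map_add' s t := by funext i; simp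

/-- The Heisenberg operator of level `4 n` on functions on the adelic space. -/
def UA (n : ℕ) (y : VA) (f : VA → ℂ) : VA → ℂ :=
  fun x => psi ((2 * n : ℕ) * EB y x) * f (x + y)

end

end MG.B2
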