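import Pool.Agent.Lib.MP_33b3f9_ag.MG.B2.Ua

/-!
The theta line attached to an integral similitude.
-/

set_option autoImplicit false
set_option linter.unusedSectionVars false

namespace MG.B2

open M4 M4.B2

open Matrix Polynomial

noncomputable section

variable [Dim]

/-- The sign character on integral adelic vectors. -/
def chiA (a : VA) : ℂ := psi (qA (1 / 2) * ∑ i, a (Sum.inl i) * a (Sum.inr i))

/-- The points of order four attached to the characteristics. -/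
def q4 (η : ν → Fin 2) : VA := qV fun i => ((η i : ℕ) : ℚ) / 4

/-- `Θ` is the theta function of an isogenous variety composed with the doubling map, `θ` its
pull back along `g`, and `y` the family of its level four coordinates. -/
structure ThLine (Γ : ℕ → Submodule ℂ (VA → ℂ)) (g : Matrix ν ν ℤ) (M : ℕ) (θ Θ : VA → ℂ)
    (y : (ν → Fin 2) → (ν → ℚ) → ℂ) : Prop where
  mem : θ ∈ Γ M
  eig : ∀ y : VA, 2 • (zM Af g *ᵥ y) ∈ TA → UA M y θ = chiA (2 • (zM Af g *ᵥ y)) • θ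
  uniq : ∀ c : ℕ, 0 < c → ∀ f ∈ Γ (M * c ^ 2),
    (∀ (i : ν) (y : ν → ℚ), (2 * c) • (zM ℚ g *ᵥ y) = Pi.single i 1 →
      UA (M * c ^ 2) (qV y) f = f) → ∃ κ : ℂ, ∀ z, f z = κ * θ (c • z)
  comp : ∀ x, θ x = Θ (zM Af g *ᵥ x)
  per : ∀ l ∈ TA, UA 1 l Θ = Θ
  val : ∀ η x, y η x = UA 1 (q4 η) Θ (qV x)
  ne : ∃ η, y η 0 ≠ 0
  bound : ∀ w : AbsoluteValue ℂ ℝ, IsNonarchimedean w → w 2 = 1 → ∀ x, ∃ η, w (Θ x) ≤ w (y η 0)

theorem cmp_four (η : ν → Fin 2) : 4 • q4 η ∈ TA :=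
  mem_TA.2 fun i => by
    have e : (4 • q4 η) i = ((η i : ℕ) : Af) := by
      rw [Pi.smul_apply, q4, qV, qA, ← map_nsmul, ← map_natCast (algebraMap ℚ Af)]
      congr 1
      rw [nsmul_eq_mul]
      push_cast
      ring
    rw [e]
    exact natCast_mem Zh _

end

end MG.B2
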