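import Pool.Agent.Lib.MP_33b3f9_ag.MG.B2.Mu

/-!
Integral matrices acting on the adelic space and on its reduction.
-/

set_option autoImplicit false
set_option linter.unusedSectionVars false

namespace MG.B2

open M4 M4.B2

open Matrix Polynomial

noncomputable section

variable [Dim]

theorem cmp_J (R : Type) [CommRing R] : zM R (Matrix.J ι ℤ) = Matrix.J ι R :=
  Matrix.map_J (l := ι) (R := ℤ) (Int.castRingHom R)

theorem cmp_mul (R : Type) [CommRing R] (g h : Matrix ν ν ℤ) : zM R (g * h) = zM R g * zM R h :=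
  Matrix.map_mul (f := Int.castRingHom R)

theorem cmp_smul (R : Type) [CommRing R] (n : ℤ) (g : Matrix ν ν ℤ) :
    zM R (n • g) = (n : R) • zM R g := by
  ext i j
  simp only [zM, map_apply, Matrix.smul_apply, smul_eq_mul, Int.cast_mul]

theorem cmp_one (R : Type) [CommRing R] : zM R 1 = 1 :=
  Matrix.map_one _ Int.cast_zero Int.cast_one

theorem cmp_EB {R : Type} [CommRing R] {g : Matrix ν ν ℤ} {M : ℕ}
    (hg : gᵀ * Matrix.J ι ℤ * g = (M : ℤ) • Matrix.J ι ℤ) (x y : ν → R) :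
    EB (zM R g *ᵥ x) (zM R g *ᵥ y) = M * EB x y := by
  refine sim_matrix.2 ?_ x y
  have h := congrArg (zM R) hg
  rwa [cmp_mul, cmp_mul, cmp_smul, cmp_J, Int.cast_natCast] at h

theorem cmp_adj {g : Matrix ν ν ℤ} {M : ℕ}
    (hg : gᵀ * Matrix.J ι ℤ * g = (M : ℤ) • Matrix.J ι ℤ) :
    ∃ g' : Matrix ν ν ℤ, ∀ (R : Type) [CommRing R] (x : ν → R),
      zM R g' *ᵥ (zM R g *ᵥ x) = M • x := by
  refine ⟨-Matrix.J ι ℤ * (gᵀ * Matrix.J ι ℤ), fun R _ x => ?_⟩
  rw [mulVec_mulVec, ← cmp_mul, Matrix.mul_assoc, hg, Matrix.mul_smul, Matrix.neg_mul, J_squared,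
    neg_neg, cmp_smul, cmp_one, smul_mulVec, one_mulVec, Int.cast_natCast, Nat.cast_smul_eq_nsmul]

theorem cmp_cV (l : Nat.Primes) (g : Matrix ν ν ℤ) (y : VA) :
    cV l (zM Af g *ᵥ y) = zM ℚ_[l] g *ᵥ cV l y := by
  funext i
  simp [cV, zM, mulVec, dotProduct]

theorem cmp_qV (g : Matrix ν ν ℤ) (y : ν → ℚ) : zM Af g *ᵥ qV y = qV (zM ℚ g *ᵥ y) := by
  funext i
  simp [qV, qA, zM, mulVec, dotProduct]

theorem cmp_IV {l : ℕ} [Fact l.Prime] (g : Matrix ν ν ℤ) {s : ν → ℚ_[l]} (hs : s ∈ IV l) :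
    zM ℚ_[l] g *ᵥ s ∈ IV l := by
  have e : zM ℚ_[l] g = mQ (zM ℤ_[l] g) := by
    ext i j
    simp [zM, mQ]
  rw [e]
  exact mQ_mulVec_le _ hs

theorem cmp_TA (g : Matrix ν ν ℤ) {a : VA} (ha : a ∈ TA) : zM Af g *ᵥ a ∈ TA :=
  mem_TA_iff.2 fun l => by
    rw [cmp_cV]
    exact cmp_IV g (mem_TA_iff.1 ha l)

theorem cmp_add (R : Type) [CommRing R] (g h : MZ) : zM R (g + h) = zM R g + zM R h :=
  map_add (Int.castRingHom R).mapMatrix g h

theorem cmp_zero (R : Type) [CommRing R] : zM R 0 = 0 := map_zero (Int.castRingHom R).mapMatrix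

theorem mQ_zM {l : ℕ} [Fact l.Prime] (g : MZ) : mQ (zM ℤ_[l] g) = zM ℚ_[l] g := by
  ext i j
  simp [mQ]

theorem EB_adj {R : Type} [CommRing R] (g : MZ) (x y : ν → R) :
    EB (zM R g *ᵥ x) y = EB x (zM R (adj g) *ᵥ y) := by
  have h : Matrix.J ι ℤ * adj g = gᵀ * Matrix.J ι ℤ := by
    rw [adj, Matrix.mul_neg, ← Matrix.mul_assoc, ← Matrix.mul_assoc, J_squared, Matrix.neg_mul,
      Matrix.neg_mul, neg_neg, Matrix.one_mul]
  rw [mu_EB, mu_EB, mulVec_mulVec, ← cmp_J, ← cmp_mul, h, cmp_mul, ← mulVec_mulVec,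
    dotProduct_mulVec x, ← mulVec_transpose]
  rfl

theorem zM_iV {P : Nat.Primes} (g : MZ) (s : ν → ℚ_[P]) :
    zM Af g *ᵥ iV P s = iV P (zM ℚ_[P] g *ᵥ s) :=
  VA_ext fun l => by
    rw [cmp_cV]
    by_cases hl : l = P
    · subst hl; simp
    · rw [cV_iV_ne hl, cV_iV_ne hl, mulVec_zero]

/-- Integral matrices act on the part away from `P`. -/
def zV (P : Nat.Primes) : MZ →+* Module.End ℤ (Vt P) where
  toFun g := (AddMonoidHom.mk' (fun x : Vt P => (⟨zM Af g *ᵥ x, fun i => by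
      have h := congrFun (cmp_cV P g x) i
      rwa [cV_Vt, mulVec_zero] at h⟩ : Vt P))
    fun x y => Subtype.ext (mulVec_add _ _ _)).toIntLinearMap
  map_one' := LinearMap.ext fun x => Subtype.ext (by
    change zM Af 1 *ᵥ _ = _
    rw [cmp_one, one_mulVec]; rfl)
  map_mul' g h := LinearMap.ext fun x => Subtype.ext (by
    change zM Af (g * h) *ᵥ _ = zM Af g *ᵥ (zM Af h *ᵥ _)
    rw [cmp_mul, mulVec_mulVec])
  map_zero' := LinearMap.ext fun x => Subtype.ext (by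
    change zM Af 0 *ᵥ _ = _
    rw [cmp_zero, zero_mulVec]; rfl)
  map_add' g h := LinearMap.ext fun x => Subtype.ext (by
    change zM Af (g + h) *ᵥ _ = zM Af g *ᵥ _ + zM Af h *ᵥ _
    rw [cmp_add, add_mulVec])

theorem coe_zV {P : Nat.Primes} (g : MZ) (x : Vt P) : (zV P g x : VA) = zM Af g *ᵥ x := rfl

/-- Integral matrices act on the `p`-power torsion. -/
def zW (p : ℕ) [Fact p.Prime] : MZ →+* Module.End ℤ (WW p) where
  toFun g := (matW (zM ℤ_[p] g)).toIntLinearMap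
  map_one' := LinearMap.ext fun y => QuotientAddGroup.induction_on y fun s => by
    change matW (zM ℤ_[p] 1) (s : WW p) = (s : WW p)
    rw [matW_mk, cmp_one, mQ_one, one_mulVec]
  map_mul' g h := LinearMap.ext fun y => QuotientAddGroup.induction_on y fun s => by
    change matW (zM ℤ_[p] (g * h)) (s : WW p) =
      matW (zM ℤ_[p] g) (matW (zM ℤ_[p] h) (s : WW p))
    rw [matW_mk, matW_mk, matW_mk, cmp_mul, mQ_mul, mulVec_mulVec]
  map_zero' := LinearMap.ext fun y => QuotientAddGroup.induction_on y fun s => by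
    change matW (zM ℤ_[p] 0) (s : WW p) = 0
    rw [matW_mk, mQ_zM, cmp_zero, zero_mulVec]; rfl
  map_add' g h := LinearMap.ext fun y => QuotientAddGroup.induction_on y fun s => by
    change matW (zM ℤ_[p] (g + h)) (s : WW p) =
      matW (zM ℤ_[p] g) (s : WW p) + matW (zM ℤ_[p] h) (s : WW p)
    rw [matW_mk, matW_mk, matW_mk, mQ_zM, mQ_zM, mQ_zM, cmp_add, add_mulVec]; rfl

theorem zW_mk {p : ℕ} [Fact p.Prime] (g : MZ) (s : ν → ℚ_[p]) :
    zW p g (s : WW p) = ((zM ℚ_[p] g *ᵥ s : ν → ℚ_[p]) : WW p) := by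
  rw [← mQ_zM]; rfl

end

end MG.B2
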