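import Pool.Agent.Lib.MP_33b3f9_ag.M4.DetD
import Pool.Agent.Lib.MP_33b3f9_ag.MG.B2.RedC
import Pool.Agent.Lib.MP_33b3f9_ag.MG.B2.LineDefs
import Pool.Agent.Lib.MP_33b3f9_ag.MG.B2.ZM

/-!
Comparison of two theta lines after reduction.
-/

set_option autoImplicit false
set_option linter.unusedSectionVars false

namespace MG.B2

open M4 M4.B2

open Matrix Polynomial

noncomputable section

variable [Dim]

open Pool.Agent.M4.Det

variable {P : Nat.Primes} {ι' : Type} [Fintype ι']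

theorem chiA_add_two {a b : VA} (ha : a ∈ TA) (hb : b ∈ TA) : chiA (a + 2 • b) = chiA a := by
  have h2 : qA (1 / 2) * 2 = 1 := by
    rw [← map_ofNat (algebraMap ℚ Af) 2, qA, ← map_mul]
    norm_num
  refine psi_congr ?_
  rw [← mul_sub, ← Finset.sum_sub_distrib, Finset.mul_sum]
  refine Zh.sum_mem fun i _ => ?_
  have e : qA (1 / 2) * ((a + 2 • b) (Sum.inl i) * (a + 2 • b) (Sum.inr i) -
      a (Sum.inl i) * a (Sum.inr i)) = a (Sum.inl i) * b (Sum.inr i) +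
        b (Sum.inl i) * a (Sum.inr i) + 2 * (b (Sum.inl i) * b (Sum.inr i)) := by
    simp only [two_nsmul, Pi.add_apply]
    linear_combination (a (Sum.inl i) * b (Sum.inr i) +
        b (Sum.inl i) * a (Sum.inr i) + 2 * (b (Sum.inl i) * b (Sum.inr i))) * h2
  rw [e]
  exact Zh.add_mem (Zh.add_mem (Zh.mul_mem (mem_TA.1 ha _) (mem_TA.1 hb _))
    (Zh.mul_mem (mem_TA.1 hb _) (mem_TA.1 ha _)))
    (Zh.mul_mem (ofNat_mem Zh 2) (Zh.mul_mem (mem_TA.1 hb _) (mem_TA.1 hb _)))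

theorem cmp_single (i : ν) : (Pi.single i 1 : VA) ∈ TA := mem_TA.2 fun j => by
  rw [Pi.single_apply]
  split_ifs
  · exact Zh.one_mem
  · exact Zh.zero_mem

theorem chiA_single {a b : VA} (i : ν) (hb : b ∈ TA) (h : a = Pi.single i 1 + 2 • b) :
    chiA a = 1 := by
  rw [h, chiA_add_two (cmp_single i) hb, chiA, Finset.sum_eq_zero, mul_zero, psi_zero]
  intro j _
  rcases i with i | i <;> simp

theorem cmp_gen {g : Matrix ν ν ℤ} {n : ℕ} {y : ν → ℚ} {i : ν}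
    (h : n • (zM ℚ g *ᵥ y) = Pi.single i 1) : zM Af g *ᵥ (n • qV y) = Pi.single i 1 := by
  rw [mulVec_smul, cmp_qV]
  funext j
  have h1 := congrArg qA (congrFun h j)
  simp only [qA, Pi.smul_apply, map_nsmul, Pi.single_apply, apply_ite (algebraMap ℚ Af), map_one,
    map_zero] at h1
  simpa only [qV, qA, Pi.smul_apply, Pi.single_apply] using h1

theorem cmp_gen_mem {g : Matrix ν ν ℤ} {M : ℕ}
    (hg : gᵀ * Matrix.J ι ℤ * g = (M : ℤ) • Matrix.J ι ℤ) {n : ℕ} {y : ν → ℚ} {i : ν}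
    (h : n • (zM ℚ g *ᵥ y) = Pi.single i 1) : (M * n) • qV y ∈ TA := by
  obtain ⟨g', hg'⟩ := cmp_adj hg
  rw [mul_smul, ← hg', cmp_gen h]
  exact cmp_TA _ (cmp_single i)

theorem cmp_norm {N : ℕ} (hN : ¬ P.1 ∣ N) : ‖(N : ℚ_[P])‖ = 1 :=
  Padic.norm_natCast_eq_one_iff.2 ((Nat.Prime.coprime_iff_not_dvd P.2).2 hN)

theorem cmp_norm' (e : ℂ ≃+* PadicAlgCl P) {N : ℕ} (hN : ¬ P.1 ∣ N) : ‖e N‖ = 1 := by
  rw [map_natCast, ← map_natCast (algebraMap ℚ_[P] (PadicAlgCl P))]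
  exact (PadicAlgCl.norm_extends P _).trans (cmp_norm hN)

theorem cmp_two (h : P.1 ≠ 2) : ¬ P.1 ∣ 2 := fun h2 =>
  h ((Nat.prime_dvd_prime_iff_eq P.2 Nat.prime_two).1 h2)

theorem cmp_unit {N : ℕ} (hN : ¬ P.1 ∣ N) {y : VA} (h : N • y ∈ TA) : cV P y ∈ IV P := fun i => by
  have h1 := mem_TA_iff.1 h P i
  rwa [cV_nsmul, Pi.smul_apply, smul_eq_mul, norm_mul, cmp_norm hN, one_mul] at h1

theorem cmp_div {N : ℕ} (hN : ¬ P.1 ∣ N) {a : VA} (h1 : cV P a ∈ IV P)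
    (h2 : ∀ l : Nat.Primes, l ≠ P → ∃ s ∈ IV l, cV l a = (N : ℚ_[l]) • s) :
    ∃ b ∈ TA, a = N • b := by
  have h0 : N ≠ 0 := fun h0 => hN (h0 ▸ dvd_zero _)
  have e : a = N • ((N : ℚ)⁻¹ • a) := by
    rw [← Nat.cast_smul_eq_nsmul ℚ, smul_inv_smul₀ (Nat.cast_ne_zero.2 h0)]
  refine ⟨(N : ℚ)⁻¹ • a, mem_TA_iff.2 fun l => ?_, e⟩
  by_cases hl : l = P
  · subst hl
    intro i
    have h3 := h1 i
    rwa [e, cV_nsmul, Pi.smul_apply, smul_eq_mul, norm_mul, cmp_norm hN, one_mul] at h3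
  · obtain ⟨s, hs, h3⟩ := h2 l hl
    rw [cV_qsmul, h3, Rat.cast_inv, Rat.cast_natCast, inv_smul_smul₀ (Nat.cast_ne_zero.2 h0)]
    exact hs

theorem cmp_half (hP : P.1 ≠ 2) {a : VA} (h1 : cV P a ∈ IV P)
    (h2 : ∀ l : Nat.Primes, l ≠ P → ∃ s ∈ IV l, cV l a = (2 : ℚ_[l]) • s) :
    ∃ b ∈ TA, a = 2 • b := cmp_div (cmp_two hP) h1 h2

theorem cmp_eight {R : Type} [CommRing R] {W : Matrix ν ν R} (h : ∀ a b, (8 : R) ∣ (W - 1) a b) :
    ∃ W0 : Matrix ν ν R, W = 1 + (8 : R) • W0 := by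
  choose W0 hW using h
  refine ⟨Matrix.of W0, ?_⟩
  rw [← sub_eq_iff_eq_add']
  ext a b
  exact hW a b

theorem cmp_mQ {l : ℕ} [Fact l.Prime] (W : Matrix ν ν ℤ_[l]) (s : ν → ℚ_[l]) :
    mQ (1 + (8 : ℤ_[l]) • W) *ᵥ s = s + (8 : ℚ_[l]) • (mQ W *ᵥ s) := by
  have e : mQ (1 + (8 : ℤ_[l]) • W) = mQ 1 + (8 : ℚ_[l]) • mQ W := by
    ext i j
    simp only [mQ, map_apply, Matrix.add_apply, Matrix.smul_apply, smul_eq_mul, PadicInt.coe_add,
      PadicInt.coe_mul]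
    rfl
  rw [e, mQ_one, add_mulVec, one_mulVec, smul_mulVec]

/-- A reduced section that is fixed by the generators is the reduction of a multiple of
`θ ∘ c`. The generators are `y i = (2 c g)⁻¹ e_i = (2 c M)⁻¹ g⁺ e_i`; the operators
`UAl (M c ^ 2) (qV (y i))` commute on `Γ` (`UA_UA`), have order `2 c M` (`UA_nsmul`, `per`);
`exists_fixed_lift` with `I` the integral elements of `Γ`, `redF_UA` (the component at `P` of
`y i` is integral); then `uniq`. -/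
theorem Setup.lift_line (S : Setup P ι') {g : Matrix ν ν ℤ} {M : ℕ} {θ Θ : VA → ℂ}
    {v : (ν → Fin 2) → (ν → ℚ) → ℂ} (hθ : ThLine S.D.Γ g M θ Θ v)
    (hg : gᵀ * Matrix.J ι ℤ * g = (M : ℤ) • Matrix.J ι ℤ) (hM : ¬ P.1 ∣ M) {c : ℕ}
    (hc : ¬ P.1 ∣ c) {h : Vt P × WW P → kk P} (hh : h ∈ GG S.D S.e (M * c ^ 2))
    (hU : ∀ (i : ν) (y : ν → ℚ), (2 * c) • (zM ℚ g *ᵥ y) = Pi.single i 1 →
      M8.CP.Uop (epsR S.e) (M * c ^ 2) (away P (qV y), 0) h = h) :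
    ∃ κ : ℂ, (∀ z, ‖S.e (κ * θ z)‖ ≤ 1) ∧ ∀ x : Vt P, h (x, 0) = res (S.e (κ * θ (c • (x : VA)))) := by
  have hc0 : c ≠ 0 := fun h0 => hc (h0 ▸ dvd_zero _)
  have hM0 : M ≠ 0 := fun h0 => hM (h0 ▸ dvd_zero _)
  have hN : ¬ P.1 ∣ M * (2 * c) := fun hd =>
    (P.2.dvd_mul.1 hd).elim hM fun hd => (P.2.dvd_mul.1 hd).elim (cmp_two S.odd) hc
  obtain ⟨g', hg'⟩ := cmp_adj hg
  let α := {q : ν × (ν → ℚ) // (2 * c) • (zM ℚ g *ᵥ q.2) = Pi.single q.1 1}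
  have : Finite α := Finite.of_injective (fun q : α => q.1.1) fun q q' e => by
    refine Subtype.ext (Prod.ext e ?_)
    have h1 := q.2
    rw [show q.1.1 = q'.1.1 from e, ← q'.2] at h1
    have h2 := congrArg (zM ℚ g' *ᵥ ·) h1
    simp only [mulVec_smul, hg', smul_smul] at h2
    exact smul_right_injective _ (mul_ne_zero (mul_ne_zero two_ne_zero hc0) hM0) h2
  have := Fintype.ofFinite α
  let I : AddSubgroup (VA → ℂ) :=
    { carrier := {f | f ∈ S.D.Γ (M * c ^ 2) ∧ Intg S.e f}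
      add_mem' := fun ha hb => ⟨add_mem ha.1 hb.1, ha.2.add hb.2⟩
      zero_mem' := ⟨zero_mem _, Intg.zero⟩
      neg_mem' := fun ha => ⟨neg_mem ha.1, ha.2.neg⟩ }
  obtain ⟨f, hf, hi, hfh⟩ := hh
  obtain ⟨F, hF, hFh, hFU⟩ := exists_fixed_lift (k := kk P) I (redF S.e)
    (fun f hf g hg => redF_add hf.2 hg.2) (N := M * (2 * c))
    (fun h0 => hN ((CharP.cast_eq_zero_iff (kk P) P _).1 h0))
    (fun f hf => ⟨Submodule.smul_mem _ _ hf.1, hf.2.smul (by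
      rw [map_inv₀, norm_inv, cmp_norm' S.e hN, inv_one])⟩)
    (fun q : α => UAl (M * c ^ 2) (qV q.1.2))
    (fun q f hf => ⟨S.D.tr _ _ (by
      rw [show 4 * (M * c ^ 2) = 2 * c * (M * (2 * c)) by ring, mul_smul]
      exact TA.nsmul_mem (cmp_gen_mem hg q.2) _) f hf.1, hf.2.UA _ _⟩)
    (fun q q' f _ => by
      change UA _ _ (UA _ _ f) = UA _ _ (UA _ _ f)
      rw [UA_UA, UA_UA, add_comm (qV q.1.2)]
      congr 1
      refine psi_congr ?_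
      have h1 := EB_mem (cmp_single q'.1.1) (cmp_single q.1.1)
      rw [← cmp_gen q.2, ← cmp_gen q'.2, cmp_EB hg, ← Nat.cast_smul_eq_nsmul Af,
        ← Nat.cast_smul_eq_nsmul Af, EB_smul_left, EB_smul_right] at h1
      rw [EB_swap (qV q'.1.2)]
      refine (congrArg (· ∈ Zh) ?_).mp h1
      push_cast
      ring)
    (fun q f hf => by
      rw [Module.End.pow_apply]
      exact (UA_nsmul _ _ _ f).trans (S.D.per _ _ (cmp_gen_mem hg q.2) f hf.1))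
    h (fun q f hf e => by
      change redF S.e (UA _ _ f) = h
      rw [redF_UA S.D hf.1 hf.2, e,
        (QuotientAddGroup.eq_zero_iff _).2 (cmp_unit hN (cmp_gen_mem hg q.2))]
      exact hU _ _ q.2) (f := f) ⟨hf, hi⟩ hfh Finset.univ
  obtain ⟨κ, hκ⟩ := hθ.uniq c (Nat.pos_of_ne_zero hc0) F hF.1 fun i y hy =>
    hFU ⟨(i, y), hy⟩ (Finset.mem_univ _)
  refine ⟨κ, fun z => ?_, fun x => ?_⟩
  · have h1 := hF.2 ((c : ℚ)⁻¹ • z)
    rwa [hκ, ← Nat.cast_smul_eq_nsmul ℚ, smul_inv_smul₀ (Nat.cast_ne_zero.2 hc0)] at h1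
  · rw [← hFh, redF_zero_right S.D hF.1 hF.2, hκ]

/-- Normalise `θ'` by its largest theta constant (`bound`, `ne`), reduce, apply `hmain`. The
result `h` is fixed by the generators (`inj`, `hγ`, `eig` for `θ'` at `γ (c y)`, `hW`,
`chiA_single`). Then `lift_line`. -/
theorem Setup.cmp (S : Setup P ι') {g g' : Matrix ν ν ℤ} {M M' : ℕ} {θ θ' Θ Θ' : VA → ℂ}
    {v v' : (ν → Fin 2) → (ν → ℚ) → ℂ} (hθ : ThLine S.D.Γ g M θ Θ v)
    (hθ' : ThLine S.D.Γ g' M' θ' Θ' v') (hg : gᵀ * Matrix.J ι ℤ * g = (M : ℤ) • Matrix.J ι ℤ)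
    (hM : ¬ P.1 ∣ M) (γ : Vt P →ₗ[ℚ] Vt P)
    (hγ : ∀ x y : Vt P, (M' : Af) * EB (γ x : VA) (γ y : VA) = (M : Af) * EB (x : VA) (y : VA))
    (hW : ∀ l : Nat.Primes, l ≠ P → ∃ W : Matrix ν ν ℤ_[l],
      (∀ x : Vt P, zM ℚ_[l] g' *ᵥ cV l (γ x : VA) = mQ W *ᵥ (zM ℚ_[l] g *ᵥ cV l (x : VA))) ∧
      ∀ a b, (8 : ℤ_[l]) ∣ (W - 1) a b)
    {c : ℕ} (hc : ¬ P.1 ∣ c)
    (hmain : ∀ f ∈ GG S.D S.e M', ∃ h ∈ GG S.D S.e (M * c ^ 2), ∀ x : Vt P,
      h (x, 0) = f (γ (c • x), 0)) :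
    ∃ κ κ' : ℂ, (∀ z, ‖S.e (κ * θ z)‖ ≤ 1) ∧ (∀ z, ‖S.e (κ' * Θ' z)‖ ≤ 1) ∧
      (∃ η, ‖S.e (κ' * v' η 0)‖ = 1) ∧
      ∀ x : Vt P, res (S.e (κ * θ x)) = res (S.e (κ' * θ' (γ x))) := by
  have hc0 : c ≠ 0 := fun h0 => hc (h0 ▸ dvd_zero _)
  obtain ⟨η0, -, hmax⟩ := Finset.univ.exists_max_image (fun η => ‖S.e (v' η 0)‖)
    Finset.univ_nonempty
  have h0 : v' η0 0 ≠ 0 := fun h0 => by
    obtain ⟨η, hη⟩ := hθ'.ne
    have h1 := hmax η (Finset.mem_univ _)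
    rw [h0, map_zero, norm_zero, norm_le_zero_iff, map_eq_zero] at h1
    exact hη h1
  have hf : (v' η0 0)⁻¹ • θ' ∈ S.D.Γ M' := Submodule.smul_mem _ _ hθ'.mem
  have hi0 : ∀ x, ‖S.e ((v' η0 0)⁻¹ * Θ' x)‖ ≤ 1 := fun x => by
    obtain ⟨η, hη⟩ := hθ'.bound (abv S.e) (abv_na S.e) (cmp_norm' S.e (cmp_two S.odd)) x
    rw [map_mul, norm_mul, map_inv₀, norm_inv]
    exact inv_mul_le_one_of_le₀ (le_trans hη (hmax η (Finset.mem_univ _))) (norm_nonneg _)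
  have hi : Intg S.e ((v' η0 0)⁻¹ • θ') := fun x => by
    rw [Pi.smul_apply, smul_eq_mul, hθ'.comp]
    exact hi0 _
  obtain ⟨h, hh, hx⟩ := hmain _ ⟨_, hf, hi, rfl⟩
  simp only [redF_zero_right S.D hf hi] at hx
  obtain ⟨κ, hκ, hκ'⟩ := S.lift_line hθ hg hM hc hh fun i y hy => by
    have h1 : (4 * (M * c ^ 2)) • away P (qV y) ∈ Lam P := by
      rw [← map_nsmul, show 4 * (M * c ^ 2) = 2 * c * (M * (2 * c)) by ring, mul_smul]
      exact away_mem_Lam P (TA.nsmul_mem (cmp_gen_mem hg hy) _)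
    rw [← sub_eq_zero]
    refine S.inj _ _ (sub_mem (GG_tr S.D S.e _ (away P (qV y), 0) h1 (smul_zero _) h hh) hh)
      fun x => ?_
    obtain ⟨b, hb, e⟩ := cmp_half S.odd
      (a := 2 • (zM Af g' *ᵥ (γ (c • away P (qV y)) : VA)) - Pi.single i 1) (by
        rw [cV_sub, cV_nsmul, cmp_cV, cV_Vt, mulVec_zero, smul_zero, zero_sub]
        exact (IV P).neg_mem (mem_TA_iff.1 (cmp_single i) P)) fun l hl => by
        obtain ⟨W, h2, h3⟩ := hW l hl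
        obtain ⟨W0, rfl⟩ := cmp_eight h3
        have h4 := congrArg (cV l) (cmp_gen hy)
        rw [cmp_cV, cV_nsmul, mulVec_smul] at h4
        refine ⟨4 • (mQ W0 *ᵥ cV l (Pi.single i 1)), (IV l).nsmul_mem
          (mQ_mulVec_le _ (mem_TA_iff.1 (cmp_single i) l)) 4, ?_⟩
        rw [cV_sub, cV_nsmul, cmp_cV, h2, cmp_mQ, Submodule.coe_smul_of_tower, cV_nsmul,
          cV_away_ne hl, ← h4]
        simp only [mulVec_smul]
        push_cast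
        module
    rw [sub_eq_iff_eq_add'] at e
    have h2 := hθ'.eig (γ (c • away P (qV y))) (by
      rw [e]; exact TA.add_mem (cmp_single i) (TA.nsmul_mem hb 2))
    rw [chiA_single i hb e] at h2
    have h3 : ((2 * M' : ℕ) : Af) * EB (γ (c • away P (qV y)) : VA) (γ (c • x) : VA) =
        ((2 * (M * c ^ 2) : ℕ) : Af) * EB (away P (qV y) : VA) (x : VA) := by
      have h4 := hγ (c • away P (qV y)) (c • x)
      rw [Submodule.coe_smul_of_tower, Submodule.coe_smul_of_tower,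
        ← Nat.cast_smul_eq_nsmul Af c (away P (qV y) : VA), ← Nat.cast_smul_eq_nsmul Af c (x : VA),
        EB_smul_left, EB_smul_right] at h4
      push_cast
      linear_combination 2 * h4
    simp only [Pi.sub_apply, M8.CP.Uop, Prod.mk_add_mk, add_zero, hx, smul_add, map_add,
      Submodule.coe_add, Pi.smul_apply, smul_eq_mul, apply_add_of_UA h2, h3, epsR_pow, one_mul]
    rw [mul_left_comm (v' η0 0)⁻¹, map_mul S.e (psi _),
      res_mul (y := S.e ((v' η0 0)⁻¹ * θ' _)) (norm_e_psi _ _).le (hi _), ← mul_assoc,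
      ← res_psi_add, add_neg_cancel, psi_zero, map_one, res_one, one_mul, sub_self]
  refine ⟨κ, (v' η0 0)⁻¹, hκ, hi0, ⟨η0, by rw [inv_mul_cancel₀ h0, map_one, norm_one]⟩,
    fun x => ?_⟩
  have h1 := (hκ' ((c : ℚ)⁻¹ • x)).symm.trans (hx _)
  rwa [← Submodule.coe_smul_of_tower, ← Nat.cast_smul_eq_nsmul ℚ,
    smul_inv_smul₀ (Nat.cast_ne_zero.2 hc0)] at h1

end

end MG.B2
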