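import Pool.Agent.Lib.MP_33b3f9_ag.MG.IDefA

/-!
Polynomials over the order, evaluated at integral matrices.
-/

set_option autoImplicit false
set_option linter.unusedSectionVars false

noncomputable section

namespace MG.B2

open Matrix Polynomial

variable [Dim] {e : ℕ} {a b : MZ} {m n : ℕ}

/-- The value at `π` of a polynomial over a ring that acts by integral matrices. -/
def evZ {A R : Type} [CommRing A] [CommRing R] (ψ : A →+* MZ) (π : Matrix ν ν R) (f : A[X]) :
    Matrix ν ν R :=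
  f.eval₂ ((Int.castRingHom R).mapMatrix.comp ψ) π

theorem ev_map (D : PD e a b m n) {ψ : D.A →+* MZ} (hψ : ∀ x, zM ℚ (ψ x) = D.φ x)
    {K : IntermediateField ℚ ℂ} (r : Rep K) (l : ℕ) [Fact l.Prime] (σ : ℂ ≃ₐ[K] ℂ) (f : D.A[X]) :
    D.ev r l σ (f.map D.A.val.toRingHom) =
      (evZ ψ (r l σ : Matrix ν ν ℤ_[l]) f).map ((↑) : ℤ_[l] → ℚ_[l]) := by
  have h := hom_eval₂ f ((Int.castRingHom ℤ_[l]).mapMatrix.comp ψ)
    (PadicInt.Coe.ringHom (p := l)).mapMatrix (r l σ : Matrix ν ν ℤ_[l])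
  refine Eq.trans ?_ h.symm
  rw [PD.ev, eval₂_map]
  refine congrArg (fun φ => eval₂ φ _ f) (RingHom.ext fun x => ?_)
  ext i j
  have h1 := congrFun (congrFun (hψ x) i) j
  simp only [map_apply] at h1
  simp [PD.φl, ← h1]

end MG.B2
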