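import Pool.Agent.Lib.MP_33b3f9_ag.MG.B2.ToTD
import Pool.Agent.Lib.MP_33b3f9_ag.M4.B2.Frob
import Pool.Agent.Lib.MP_33b3f9_ag.MG.B2.EvZ

/-!
Dictionary between the reduced theta data and the `l`-adic matrices.
-/

set_option autoImplicit false
set_option linter.unusedSectionVars false

namespace MG.B2

open M4 M4.B2

open Matrix Polynomial

noncomputable section

variable [Dim]

variable {P : Nat.Primes} {ι' : Type} [Fintype ι'] {S : Setup P ι'} {A : Type} [CommRing A]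
  (T : Act S A) {s : PadicAlgCl P ≃ₐ[ℚ_[P]] PadicAlgCl P} (hs : IsFrob s)

theorem mQ_zero {l : ℕ} [Fact l.Prime] : mQ (0 : Matrix ν ν ℤ_[l]) = 0 :=
  map_zero (PadicInt.Coe.ringHom (p := l)).mapMatrix

theorem mQ_add {l : ℕ} [Fact l.Prime] (g h : Matrix ν ν ℤ_[l]) : mQ (g + h) = mQ g + mQ h :=
  map_add (PadicInt.Coe.ringHom (p := l)).mapMatrix g h

theorem mQ_sub {l : ℕ} [Fact l.Prime] (g h : Matrix ν ν ℤ_[l]) : mQ (g - h) = mQ g - mQ h :=
  map_sub (PadicInt.Coe.ringHom (p := l)).mapMatrix g h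

theorem mQ_smul {l : ℕ} [Fact l.Prime] (c : ℤ_[l]) (g : Matrix ν ν ℤ_[l]) :
    mQ (c • g) = (c : ℚ_[l]) • mQ g := by
  ext i j
  simp [mQ]

theorem dec_X {k : Type} [Field k] {p gd : ℕ} {V W : Type} [AddCommGroup V] [Module ℚ V]
    [AddCommGroup W] (T : CP.TD k p gd A V W ι') (x : V) (j : ℕ) :
    T.polV (X ^ (j + 1)) x = T.sV (T.polV (X ^ j) x) := by
  rw [pow_succ', map_mul, Module.End.mul_apply]
  exact LinearMap.congr_fun (eval₂_X T.aV _) _

theorem Act.cV_pow (j : ℕ) (x : Vt P) (l : Nat.Primes) :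
    cV l (((T.toTD hs).polV (X ^ j) x : Vt P) : VA) =
      mQ ((S.R s l : Matrix ν ν ℤ_[l]) ^ j) *ᵥ cV l (x : VA) := by
  induction j with
  | zero => rw [pow_zero, pow_zero, map_one, mQ_one, one_mulVec]; rfl
  | succ j ih =>
    rw [dec_X, pow_succ', mQ_mul, ← mulVec_mulVec, ← ih]
    exact cV_rho (S.R s) _ l

/-- Induction on the polynomial. -/
theorem Act.cV_polV (a : A[X]) (x : Vt P) (l : Nat.Primes) :
    cV l (((T.toTD hs).polV a x : Vt P) : VA) =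
      mQ (evZ T.ψ (S.R s l : Matrix ν ν ℤ_[l]) a) *ᵥ cV l (x : VA) := by
  induction a using Polynomial.induction_on' with
  | add a b ha hb =>
    rw [map_add, LinearMap.add_apply, Submodule.coe_add, cV_add, ha, hb, evZ, evZ, evZ, eval₂_add,
      mQ_add, add_mulVec]
  | monomial n c =>
    have h : (T.toTD hs).polV (C c) = zV P (T.ψ c) := eval₂_C _ _
    rw [evZ, eval₂_monomial, ← C_mul_X_pow_eq_monomial, map_mul, Module.End.mul_apply, h, coe_zV,
      cmp_cV, T.cV_pow, mQ_mul, mulVec_mulVec, ← mQ_zM]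
    rfl

/-- Test on the vectors `iV l (Pi.single i 1)`. -/
theorem Act.polV_eq_zero (a : A[X]) : (T.toTD hs).polV a = 0 ↔
    ∀ l : Nat.Primes, l ≠ P → evZ T.ψ (S.R s l : Matrix ν ν ℤ_[l]) a = 0 := by
  constructor
  · intro h l hl
    ext i j
    have h1 := congrFun (T.cV_polV hs a ⟨iV l (Pi.single j 1), fun _ => cp_inc_ne hl.symm _⟩ l) i
    rw [h, cV_iV_self, mulVec_single_one] at h1
    refine Subtype.ext (h1.symm.trans ?_)
    exact map_zero (cp l)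
  · intro h
    refine LinearMap.ext fun x => Subtype.ext (VA_ext fun l => ?_)
    by_cases hl : l = P
    · subst hl
      rw [cV_Vt, cV_Vt]
    · rw [T.cV_polV, h l hl, mQ_zero, zero_mulVec]
      funext i
      exact (map_zero (cp l)).symm

/-- `y = (l ^ n)⁻¹ • polV a x` is integral at `l` by hypothesis, at the other primes because
`l ^ n` is a unit. -/
theorem Act.polV_lam {l : Nat.Primes} (n : ℕ) (a : A[X])
    (h : ∀ i j, (l.1 : ℤ_[l]) ^ n ∣ evZ T.ψ (S.R s l : Matrix ν ν ℤ_[l]) a i j) (x : Vt P)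
    (hx : x ∈ Lam P) : ∃ y ∈ Lam P, (T.toTD hs).polV a x = l.1 ^ n • y := by
  have hl : ((l.1 ^ n : ℕ) : ℚ) ≠ 0 := by exact_mod_cast pow_ne_zero n l.2.ne_zero
  refine ⟨((l.1 ^ n : ℕ) : ℚ)⁻¹ • (T.toTD hs).polV a x, mem_Lam.2 (mem_TA_iff.2 fun l' i => ?_),
    by rw [← Nat.cast_smul_eq_nsmul ℚ, smul_smul, mul_inv_cancel₀ hl, one_smul]⟩
  have hx' := mem_TA_iff.1 (mem_Lam.1 hx) l'
  rw [Submodule.coe_smul, cV_qsmul, T.cV_polV]
  push_cast
  by_cases e : l' = l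
  · subst e
    choose b hb using h
    have h1 : evZ T.ψ (S.R s l' : Matrix ν ν ℤ_[l']) a =
        (l'.1 : ℤ_[l']) ^ n • Matrix.of b := by
      ext i j
      rw [hb]
      rfl
    have h2 : (l'.1 : ℚ_[l']) ^ n ≠ 0 := pow_ne_zero _ (by exact_mod_cast l'.2.ne_zero)
    rw [h1, mQ_smul, smul_mulVec, smul_smul]
    push_cast
    rw [inv_mul_cancel₀ h2, one_smul]
    exact mQ_mulVec_le _ hx' i
  · have h1 : ‖(l.1 : ℚ_[l'])‖ = 1 := (Padic.norm_natCast_eq_one_iff (p := l') (n := l.1)).2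
      ((Nat.coprime_primes l'.2 l.2).2 fun h => e (Subtype.ext h))
    rw [Pi.smul_apply, smul_eq_mul, norm_mul, norm_inv, norm_pow, h1, one_pow, inv_one, one_mul]
    exact mQ_mulVec_le _ hx' i

variable (S) in
/-- The multiplier of `t`. -/
theorem dec_chi (t : PadicAlgCl P ≃ₐ[ℚ_[P]] PadicAlgCl P) : ∃ χ : Af,
    (∀ x, t (S.e (psi x)) = S.e (psi (χ * x))) ∧ ∀ (l : Nat.Primes) (x y : ν → ℚ_[l]),
      EB (mQ (S.R t l) *ᵥ x) (mQ (S.R t l) *ᵥ y) = cp l χ * EB x y := by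
  obtain ⟨χ, h1, h2⟩ := exists_chi (cj S.e t) (rho (S.R t)) (S.equiv_psi t)
  refine ⟨χ, fun x => by rw [← e_cj, h1], fun l x y => ?_⟩
  have h := congrArg (cp l) (h2 (iV l x) (iV l y))
  rwa [map_mul, cp_EB, cp_EB, cV_rho, cV_rho, cV_iV_self, cV_iV_self] at h

theorem dec_inv (l : Nat.Primes) : ¬ ‖(l.1 : ℚ_[l])⁻¹‖ ≤ 1 := by
  rw [norm_inv, Padic.norm_p, inv_inv, not_le]
  exact_mod_cast l.2.one_lt

variable (S) in
include hs in
/-- `exists_chi`; for `x` supported at `l`, `psi (χ x)` and `psi (P x)` have the same residue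
(`IsFrob.res`, `res_psi_eq_one`); `eq_zero_of_psi`. -/
theorem Setup.mult {l : Nat.Primes} (hl : l ≠ P) (x y : ν → ℚ_[l]) :
    EB (mQ (S.R s l) *ᵥ x) (mQ (S.R s l) *ᵥ y) = (P.1 : ℚ_[l]) * EB x y := by
  obtain ⟨χ, h1, h2⟩ := dec_chi S s
  rw [h2]
  congr 1
  by_contra hc
  have hc' : cp l χ - P.1 ≠ 0 := sub_ne_zero.2 hc
  obtain ⟨z, hz⟩ : ∃ z, z = inc l ((cp l χ - P.1)⁻¹ * (l.1 : ℚ_[l])⁻¹) := ⟨_, rfl⟩
  have h3 : res (S.e (psi (χ * z))) = res (S.e (psi ((P.1 : Af) * z))) := by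
    rw [← h1, hs.res (norm_e_psi _ _).le, psi_nsmul, map_pow, res_pow (norm_e_psi _ _).le]
  have h4 := res_psi_add S.e ((χ - P.1) * z) ((P.1 : Af) * z)
  have h5 : res (S.e (psi ((P.1 : Af) * z))) ≠ 0 := fun h0 =>
    (norm_e_psi _ _).not_lt ((res_eq_zero (norm_e_psi _ _).le).1 h0)
  rw [← add_mul, sub_add_cancel, h3, right_eq_mul₀ h5,
    res_psi_eq_one _ (by rw [map_mul, hz, cp_inc_ne hl.symm, mul_zero])] at h4
  have h6 := h4 l
  rw [map_mul, map_sub, map_natCast, hz, cp_inc_self, mul_inv_cancel_left₀ hc'] at h6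
  exact dec_inv l h6

theorem dec_fr {k : Type} [Field k] {p gd : ℕ} {V W : Type} [AddCommGroup V] [Module ℚ V]
    [AddCommGroup W] (T : CP.TD k p gd A V W ι') (i : ι') (x : V) (j : ℕ) :
    T.X i (T.polV (X ^ j) x, 0) = T.X i (x, 0) ^ p ^ j := by
  induction j with
  | zero => simp
  | succ j ih =>
    have h2 := T.fr i (T.polV (X ^ j) x, 0)
    rw [map_zero] at h2
    rw [dec_X, h2, ih, ← pow_mul, pow_succ]

/-- `exists_pow_res` for the values of the `X i` at the points `away P (qV (e_b / M))`;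
`redF_rho`, `fr` iterated, `sep`. -/
theorem Act.unram (ho : Outs (T.toTD hs)) (t : PadicAlgCl P ≃ₐ[ℚ_[P]] PadicAlgCl P) {M : ℕ}
    (hM : ¬ P.1 ∣ M) : ∃ j : ℕ, ∀ l : Nat.Primes, l ≠ P → ∀ a b,
      (M : ℤ_[l]) ∣ ((S.R t l : Matrix ν ν ℤ_[l]) - (S.R s l : Matrix ν ν ℤ_[l]) ^ j) a b := by
  classical
  obtain ⟨x, hx⟩ : ∃ x : ν → Vt P, ∀ b, x b = away P (qV (Pi.single b (M : ℚ)⁻¹)) :=
    ⟨_, fun _ => rfl⟩
  obtain ⟨j, hj⟩ := exists_pow_res t
    (Finset.univ.image fun q : ι' × ν => S.e (S.D.X q.1 (lift (x q.2, 0)))) fun z hz => by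
      obtain ⟨q, -, rfl⟩ := Finset.mem_image.1 hz
      exact S.intg_X _ _
  refine ⟨j, fun l hl a b => ?_⟩
  have e0 : ∀ u v : Vt P, (u, (0 : WW P)) + (v - u, 0) = (v, 0) := fun u v =>
    Prod.ext (Subtype.ext (add_sub_cancel (u : VA) v)) (add_zero _)
  have h1 := (ho.sep ((T.toTD hs).polV (X ^ j) (x b), 0)
    (rhoV P (S.R t) (x b) - (T.toTD hs).polV (X ^ j) (x b), 0) 1 fun i => by
      have h2 := S.redF_rho t i (x b, 0)
      rw [map_zero, hj _ (Finset.mem_image.2 ⟨(i, b), Finset.mem_univ _, rfl⟩)] at h2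
      rw [one_mul, dec_fr]
      exact (congrArg _ (e0 _ _)).trans h2).1
  have h2 := mem_TA_iff.1 (mem_Lam.1 h1) l a
  have h3 : cV l (x b : VA) = (M : ℚ_[l])⁻¹ • Pi.single b 1 := by
    rw [hx, cV_away_ne hl, cV_qV]
    funext i
    by_cases e : i = b
    · subst e
      simp
    · simp [e]
  rw [Submodule.coe_sub, cV_sub, coe_rhoV, cV_rho, T.cV_pow, ← sub_mulVec,
    ← mQ_sub, h3, mulVec_smul, mulVec_single_one] at h2
  have hM0 : (M : ℚ_[l]) ≠ 0 := by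
    have : M ≠ 0 := fun h => hM (h ▸ dvd_zero _)
    exact_mod_cast this
  refine ⟨⟨_, h2⟩, Subtype.ext ?_⟩
  exact (mul_inv_cancel_left₀ hM0 _).symm

/-- The inertia group acts trivially away from `P`. -/
theorem Act.inert (ho : Outs (T.toTD hs)) {t : PadicAlgCl P ≃ₐ[ℚ_[P]] PadicAlgCl P}
    (ht : ∀ x, ‖x‖ ≤ 1 → ‖t x - x‖ < 1) {l : Nat.Primes} (hl : l ≠ P) : S.R t l = 1 := by
  have e0 : ∀ u v : Vt P, (u, (0 : WW P)) + (v - u, 0) = (v, 0) := fun u v =>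
    Prod.ext (Subtype.ext (add_sub_cancel (u : VA) v)) (add_zero _)
  have h1 : ∀ x : Vt P, rhoV P (S.R t) x - x ∈ Lam P := fun x =>
    (ho.sep (x, 0) (rhoV P (S.R t) x - x, 0) 1 fun i => by
      have h2 := S.redF_rho t i (x, 0)
      rw [map_zero, (res_eq_iff ((norm_aut t _).trans_le (S.intg_X _ _)) (S.intg_X _ _)).2
        (ht _ (S.intg_X _ _))] at h2
      rw [one_mul]
      exact (congrArg _ (e0 _ _)).trans h2).1
  have h2 : ∀ x : Vt P, rhoV P (S.R t) x - x = 0 := fun x => eq_zero_of_line fun q => by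
    have h3 := mem_Lam.1 (h1 (q • x))
    rw [Submodule.coe_sub, coe_rhoV, Submodule.coe_smul, map_rat_smul (rho (S.R t)) q (x : VA),
      ← smul_sub] at h3
    exact h3
  ext i j
  have h3 := congrFun (congrArg (fun z : Vt P => cV l (z : VA))
    (sub_eq_zero.1 (h2 ⟨iV l (Pi.single j 1), fun _ => cp_inc_ne hl.symm _⟩))) i
  rw [coe_rhoV, cV_rho, cV_iV_self, mulVec_single_one] at h3
  refine Subtype.ext (h3.trans ?_)
  rw [Units.val_one, one_apply, Pi.single_apply]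
  split_ifs <;> rfl

end

end MG.B2
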