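import Pool.Agent.Lib.MP_33b3f9_ag.MG.B2.Ad
import Pool.Agent.Lib.MP_33b3f9_ag.M4.B2.Defs
import Pool.Agent.Lib.MP_33b3f9_ag.MG.CP.Defs

/-!
Definitions: theta data in characteristic zero, reduction of functions.
-/

set_option autoImplicit false
set_option linter.unusedSectionVars false

namespace MG.B2

open M4 M4.B2

open Matrix Polynomial

noncomputable section

variable [Dim]

/-- Theta data in characteristic zero; `Γ n` is the space of sections of level `4 n`. -/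
structure TD0 (ι' : Type) [Fintype ι'] where
  Γ : ℕ → Submodule ℂ (VA → ℂ)
  X : ι' → VA → ℂ
  i0 : ι'
  cl : ι' → ι' → ι' → ι' → ι' → ι' → ℂ
  cd : ι' → ι' → ℂ
  X_zero : X i0 0 = 1
  X_mem : ∀ i, X i ∈ Γ 1
  heis : ∀ y : VA, 4 • y ∈ TA → ∀ i, ∃ (j : ι') (c : ℂ), c ^ 8 = 1 ∧ UA 1 y (X i) = c • X j
  one_mem : (1 : VA → ℂ) ∈ Γ 0
  mul_mem : ∀ n m f g, f ∈ Γ n → g ∈ Γ m → f * g ∈ Γ (n + m)
  fin : ∀ n, 1 ≤ n → FiniteDimensional ℂ (Γ n)
  dim_le : ∀ n, 1 ≤ n → Module.finrank ℂ (Γ n) ≤ (4 * n) ^ Fintype.card ι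
  tr : ∀ n (y : VA), (4 * n) • y ∈ TA → ∀ f ∈ Γ n, UA n y f ∈ Γ n
  per : ∀ n, ∀ l ∈ TA, ∀ f ∈ Γ n, UA n l f = f
  mul : ∀ n (c : ℤ), ∀ f ∈ Γ n, (fun z => f (c • z)) ∈ Γ (n * c.natAbs ^ 2)
  bpf : ∀ z, ∃ i, X i z ≠ 0
  law : ∀ a b z z', X a (z + z') * X b (z - z') =
    ∑ i, ∑ j, ∑ l, ∑ m, cl a b i j l m * (X i z * X j z) * (X l z' * X m z')
  dup : ∀ a z, X a z ^ 4 = ∑ b, cd a b * X b (z + z)

/-- An integral `l`-adic matrix as a matrix over `ℚ_l`. -/
def mQ {l : ℕ} [Fact l.Prime] (g : Matrix ν ν ℤ_[l]) : Matrix ν ν ℚ_[l] :=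
  g.map (fun x => (x : ℚ_[l]))

/-- A family of integral matrices as an adelic matrix. -/
def toA (m : ∀ l : Nat.Primes, Matrix ν ν ℤ_[l]) : Matrix ν ν Af :=
  fun i j => ⟨fun l => (m l i j : ℚ_[l]), 1, one_pos, fun l => by simpa using (m l i j).2⟩

theorem cV_toA_mulVec (m : ∀ l : Nat.Primes, Matrix ν ν ℤ_[l]) (x : VA) (l : Nat.Primes) :
    cV l (toA m *ᵥ x) = mQ (m l) *ᵥ cV l x := by
  funext i
  simp only [cV, mulVec, dotProduct, map_sum, map_mul, mQ, map_apply]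
  rfl

theorem VA_ext {x y : VA} (h : ∀ l, cV l x = cV l y) : x = y :=
  funext fun i => Af_ext fun l => congrFun (h l) i

theorem mQ_mul {l : ℕ} [Fact l.Prime] (g h : Matrix ν ν ℤ_[l]) : mQ (g * h) = mQ g * mQ h :=
  Matrix.map_mul (f := PadicInt.Coe.ringHom)

theorem mQ_one {l : ℕ} [Fact l.Prime] : mQ (1 : Matrix ν ν ℤ_[l]) = 1 :=
  Matrix.map_one _ rfl rfl

/-- The automorphism of the adelic space given by a family of invertible integral matrices. -/
def rho (r : ∀ l : Nat.Primes, GL ν ℤ_[l]) : VA ≃ₗ[Af] VA where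
  toFun x := toA (fun l => (r l : Matrix ν ν ℤ_[l])) *ᵥ x
  invFun x := toA (fun l => ((r l)⁻¹ : GL ν ℤ_[l])) *ᵥ x
  map_add' x y := mulVec_add _ _ _
  map_smul' c x := mulVec_smul _ _ _
  left_inv x := VA_ext fun l => by
    rw [cV_toA_mulVec, cV_toA_mulVec, mulVec_mulVec, ← mQ_mul, Units.inv_mul, mQ_one, one_mulVec]
  right_inv x := VA_ext fun l => by
    rw [cV_toA_mulVec, cV_toA_mulVec, mulVec_mulVec, ← mQ_mul, Units.mul_inv, mQ_one, one_mulVec]

theorem cV_rho (r : ∀ l : Nat.Primes, GL ν ℤ_[l]) (x : VA) (l : Nat.Primes) :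
    cV l (rho r x) = mQ (r l) *ᵥ cV l x := cV_toA_mulVec _ x l

theorem cV_rho_symm (r : ∀ l : Nat.Primes, GL ν ℤ_[l]) (x : VA) (l : Nat.Primes) :
    cV l ((rho r).symm x) = mQ ((r l)⁻¹ : GL ν ℤ_[l]) *ᵥ cV l x := cV_toA_mulVec _ x l

theorem mQ_mulVec_le {l : ℕ} [Fact l.Prime] (g : Matrix ν ν ℤ_[l]) {s : ν → ℚ_[l]}
    (hs : ∀ i, ‖s i‖ ≤ 1) (i : ν) : ‖(mQ g *ᵥ s) i‖ ≤ 1 := by
  simp only [mulVec, dotProduct, mQ, map_apply]
  refine IsUltrametricDist.norm_sum_le_of_forall_le_of_nonneg zero_le_one fun j _ => ?_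
  rw [norm_mul]
  exact mul_le_one₀ (g i j).2 (norm_nonneg _) (hs j)

theorem mem_TA_iff {x : VA} : x ∈ TA ↔ ∀ l i, ‖cV l x i‖ ≤ 1 :=
  mem_TA.trans ⟨fun h l i => h i l, fun h i l => h l i⟩

theorem rho_mem_TA (r : ∀ l : Nat.Primes, GL ν ℤ_[l]) {x : VA} : rho r x ∈ TA ↔ x ∈ TA := by
  constructor
  · intro h
    rw [← (rho r).symm_apply_apply x]
    exact mem_TA_iff.2 fun l i => by
      rw [cV_rho_symm]; exact mQ_mulVec_le _ (mem_TA_iff.1 h l) i
  · intro h
    exact mem_TA_iff.2 fun l i => by rw [cV_rho]; exact mQ_mulVec_le _ (mem_TA_iff.1 h l) i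

/-- The adelic vectors with zero component at `P`. -/
def Vt (P : Nat.Primes) : Submodule ℚ VA where
  carrier := {x | ∀ i, cp P (x i) = 0}
  add_mem' := fun {x y} hx hy i => by simp [hx i, hy i]
  zero_mem' := fun i => by simp
  smul_mem' := fun c x hx i => by simp [hx i]

/-- The integral vectors among them. -/
def Lam (P : Nat.Primes) : AddSubgroup (Vt P) := TA.comap (Vt P).subtype.toAddMonoidHom

theorem mem_Lam {P : Nat.Primes} {x : Vt P} : x ∈ Lam P ↔ (x : VA) ∈ TA := Iff.rfl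

/-- The part of an adelic vector away from `P`. -/
def away (P : Nat.Primes) : VA →+ Vt P where
  toFun x := ⟨x - iV P (cV P x), fun i => by simp [iV, cV]⟩
  map_zero' := Subtype.ext (by
    have : cV P 0 = 0 := by funext i; simp [cV]
    simp [this])
  map_add' x y := Subtype.ext (by
    have : cV P (x + y) = cV P x + cV P y := by funext i; simp [cV]
    simp only [this, map_add, Submodule.coe_add]; abel)

/-- The integral `p`-adic vectors. -/
def IV (p : ℕ) [Fact p.Prime] : AddSubgroup (ν → ℚ_[p]) where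
  carrier := {s | ∀ i, ‖s i‖ ≤ 1}
  add_mem' := fun {x y} hx hy i => (Padic.nonarchimedean _ _).trans (max_le (hx i) (hy i))
  zero_mem' := fun i => by simp
  neg_mem' := fun {x} hx i => by simpa using hx i

/-- The `p`-power torsion. -/
abbrev WW (p : ℕ) [Fact p.Prime] : Type := (ν → ℚ_[p]) ⧸ IV p

/-- A lift to the adelic space. -/
def lift {P : Nat.Primes} (z : Vt P × WW P) : VA := z.1 + iV P z.2.out

/-- The reduction of a function. -/
def redF {P : Nat.Primes} (e : ℂ ≃+* PadicAlgCl P) (f : VA → ℂ) : Vt P × WW P → kk P :=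
  fun z => res (e (f (lift z)))

/-- Functions with integral values. -/
def Intg {P : Nat.Primes} (e : ℂ ≃+* PadicAlgCl P) (f : VA → ℂ) : Prop := ∀ x, ‖e (f x)‖ ≤ 1

/-- The reduction of the pairing. -/
def epsR {P : Nat.Primes} (e : ℂ ≃+* PadicAlgCl P) (x y : Vt P) : kk P :=
  res (e (psi (qA (1 / 2) * EB (x : VA) (y : VA))))

/-- The action on the part away from `P`. -/
def rhoV (P : Nat.Primes) (r : ∀ l : Nat.Primes, GL ν ℤ_[l]) : Vt P ≃+ Vt P where
  toFun x := ⟨rho r x, fun i => by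
    have h : cV P (x : VA) = 0 := funext x.2
    have := congrFun (cV_rho r x P) i
    rwa [h, mulVec_zero] at this⟩
  invFun x := ⟨(rho r).symm x, fun i => by
    have h : cV P (x : VA) = 0 := funext x.2
    have := congrFun (cV_rho_symm r x P) i
    rwa [h, mulVec_zero] at this⟩
  left_inv x := Subtype.ext ((rho r).symm_apply_apply _)
  right_inv x := Subtype.ext ((rho r).apply_symm_apply _)
  map_add' x y := Subtype.ext (map_add (rho r) _ _)

/-- An integral matrix acting on the `p`-power torsion. -/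
def matW {p : ℕ} [Fact p.Prime] (g : Matrix ν ν ℤ_[p]) : WW p →+ WW p :=
  QuotientAddGroup.map (IV p) (IV p) (mulVecLin (mQ g)).toAddMonoidHom
    fun _ hs i => mQ_mulVec_le g hs i

theorem matW_mk {p : ℕ} [Fact p.Prime] (g : Matrix ν ν ℤ_[p]) (s : ν → ℚ_[p]) :
    matW g (s : WW p) = ((mQ g *ᵥ s : ν → ℚ_[p]) : WW p) := rfl

/-- An invertible integral matrix acting on the `p`-power torsion. -/
def rhoW {p : ℕ} [Fact p.Prime] (g : GL ν ℤ_[p]) : WW p ≃+ WW p where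
  toFun := matW g
  invFun := matW (g⁻¹ : GL ν ℤ_[p])
  left_inv y := QuotientAddGroup.induction_on y fun s => by
    rw [matW_mk, matW_mk, mulVec_mulVec, ← mQ_mul, Units.inv_mul, mQ_one, one_mulVec]
  right_inv y := QuotientAddGroup.induction_on y fun s => by
    rw [matW_mk, matW_mk, mulVec_mulVec, ← mQ_mul, Units.mul_inv, mQ_one, one_mulVec]
  map_add' := map_add _

/-- Theta data with a good place above `P` and the action of its decomposition group. -/
structure Setup (P : Nat.Primes) (ι' : Type) [Fintype ι'] where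
  D : TD0 ι'
  e : ℂ ≃+* PadicAlgCl P
  odd : P.1 ≠ 2
  good_cl : ∀ a b i j l m, ‖e (D.cl a b i j l m)‖ ≤ 1
  good_cd : ∀ a b, ‖e (D.cd a b)‖ ≤ 1
  R : (PadicAlgCl P ≃ₐ[ℚ_[P]] PadicAlgCl P) → ∀ l : Nat.Primes, GL ν ℤ_[l]
  fix : ∀ t a b i j l m, cj e t (D.cl a b i j l m) = D.cl a b i j l m
  compat : ∀ t x, ∃ c : ℂ, ∀ i, cj e t (D.X i x) = c * D.X i (rho (R t) x)

end

end MG.B2
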