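import Pool.Agent.Lib.MP_33b3f9_ag.MG.IDefA
import Pool.Agent.Lib.MP_33b3f9_ag.M4.ThBpf

/-!
The addition and duplication laws of the normalised level four coordinates, with constants in `K`.
-/

set_option autoImplicit false
set_option linter.unusedSectionVars false

namespace MG.B2

open M4

open Matrix

noncomputable section

variable [Dim]

variable {τ : Mat} {K : IntermediateField ℚ ℂ}

/-- Eighth roots of unity. -/
def R8 (c : ℂ) : Prop := ∃ k : ℤ, c = ee (k / 8)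

theorem R8.mul {c d : ℂ} (hc : R8 c) (hd : R8 d) : R8 (c * d) := by
  obtain ⟨k, rfl⟩ := hc
  obtain ⟨l, rfl⟩ := hd
  exact ⟨k + l, by rw [← ee_add]; push_cast; rw [add_div]⟩

theorem R8.pow {c : ℂ} (hc : R8 c) : c ^ 8 = 1 := by
  obtain ⟨k, rfl⟩ := hc
  rw [← ee_nat_mul, ← ee_int k]
  congr 1
  push_cast
  ring

theorem R8.mem {c : ℂ} (hc : R8 c) (h : ee (1 / 8) ∈ K) : c ∈ K := by
  obtain ⟨k, rfl⟩ := hc
  obtain ⟨n, rfl | rfl⟩ := Int.eq_nat_or_neg k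
  · have : ee (((n : ℤ) : ℂ) / 8) = ee (1 / 8) ^ n := by
      rw [← ee_nat_mul]; congr 1; push_cast; ring
    rw [this]
    exact pow_mem h n
  · have : ee (((-(n : ℤ) : ℤ) : ℂ) / 8) = (ee (1 / 8) ^ n)⁻¹ := by
      rw [← ee_nat_mul, ← ee_neg]; congr 1; push_cast; ring
    rw [this]
    exact K.inv_mem (pow_mem h n)

theorem R8_chi (n : ν → ℤ) : R8 (chi n) :=
  ⟨4 * ∑ i, n (Sum.inl i) * n (Sum.inr i), by
    rw [chi, ← ee_half_int]; congr 1; rw [Int.cast_mul]; push_cast; ring⟩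

theorem R8_E (k l : ν → ℤ) (c : ℤ) : R8 (ee (c * (E (hf k) (hf l) : ℂ) / 2)) := by
  obtain ⟨a, ha⟩ := E_rz k l
  refine ⟨c * a, ?_⟩
  rw [hf, hf, E_smul_left, E_smul_right, ha]
  congr 1
  push_cast
  ring

theorem XX_red (τ : Mat) (k : ν → ℤ) : ∃ (e : Bits) (c : ℂ), R8 c ∧ XX τ k = c • XX τ (bz e) := by
  obtain ⟨e, n, rfl⟩ := exists_bz k
  refine ⟨e, _, (R8_chi n).mul ?_, XX_add_two τ _ n⟩
  have h := R8_E (bz e) n 2
  rw [← two_smul_hf n, E_smul_right]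
  push_cast at h ⊢
  exact h

theorem U_XX (τ : Mat) (k n : ν → ℤ) :
    ∃ c : ℂ, R8 c ∧ U 4 ((4 : ℝ)⁻¹ • rz n) (XX τ k) = c • XX τ (n + k) := by
  have h := U_scale 2 1 ((4 : ℝ)⁻¹ • rz n) (U 1 (hf k) (Th τ))
  have h1 : (2 : ℝ) • (4 : ℝ)⁻¹ • rz n = hf n := by
    rw [hf, smul_smul]; norm_num
  rw [h1, U_U, ← hf_add, show (1 : ℝ) * 2 ^ 2 = 4 by norm_num] at h
  refine ⟨_, ?_, h⟩
  have h2 := R8_E k n 1
  push_cast at h2 ⊢
  exact h2

/-- The normalised coordinates. -/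
def YY (τ : Mat) (i0 : Bits) (k : ν → ℤ) : (ν → ℝ) → ℂ := (th2 τ i0)⁻¹ • XX τ k

theorem YY_red (τ : Mat) (i0 : Bits) (k : ν → ℤ) :
    ∃ (e : Bits) (c : ℂ), R8 c ∧ YY τ i0 k = c • YY τ i0 (bz e) := by
  obtain ⟨e, c, hc, h⟩ := XX_red τ k
  exact ⟨e, c, hc, by rw [YY, YY, h, smul_comm]⟩

theorem YY_zero_mem (hK : DefX τ K) (i0 : Bits) (k : ν → ℤ) : YY τ i0 k 0 ∈ K := by
  obtain ⟨e, c, hc, h⟩ := YY_red τ i0 k
  rw [h, YY, Pi.smul_apply, Pi.smul_apply, XX_zero, smul_eq_mul, smul_eq_mul, inv_mul_eq_div]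
  exact K.mul_mem (hc.mem hK.1) (hK.2 e i0)

theorem sum_fiber {α β : Type} [Fintype α] [Fintype β] [DecidableEq β] (π : α → β) (c : α → ℂ)
    (F : β → ℂ) : ∑ a, c a * F (π a) = ∑ b, (∑ a, if π a = b then c a else 0) * F b := by
  simp only [Finset.sum_mul, ite_mul, zero_mul]
  rw [Finset.sum_comm]
  simp

theorem sum_ite_mem {α β : Type} [Fintype α] [DecidableEq β] (π : α → β) {c : α → ℂ}
    (hc : ∀ a, c a ∈ K) (b : β) : (∑ a, if π a = b then c a else 0) ∈ K :=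
  K.sum_mem fun a _ => by
    split_ifs
    · exact hc a
    · exact K.zero_mem

theorem law_K (hτ : InH τ) (hK : DefX τ K) {i0 : Bits} (h0 : th2 τ i0 ≠ 0) (a b : Bits) :
    ∃ c : Bits → Bits → Bits → Bits → ℂ, (∀ i j l m, c i j l m ∈ K) ∧ ∀ x y,
      YY τ i0 (bz a) (x + y) * YY τ i0 (bz b) (x - y) = ∑ i, ∑ j, ∑ l, ∑ m,
        c i j l m * (YY τ i0 (bz i) x * YY τ i0 (bz j) x) *
          (YY τ i0 (bz l) y * YY τ i0 (bz m) y) := by
  obtain ⟨k, l, s, hs, hk, hl⟩ := XX_nv hτ 0 (bz a + bz b)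
  choose rd ζ hζ hY using YY_red τ i0
  have hk' : YY τ i0 k 0 ≠ 0 := mul_ne_zero (inv_ne_zero h0) hk
  have hl' : YY τ i0 l 0 ≠ 0 := mul_ne_zero (inv_ne_zero h0) hl
  let π : Bits → Bits × Bits × Bits × Bits := fun e =>
    (rd (s + bz e), rd (s - k - l + bz e), rd (s - bz b - l + bz e), rd (s - bz b - k + bz e))
  let c : Bits → ℂ := fun e => chi (bz e) * ee (E (hf (bz e)) (hf (bz a))) *
    (ζ (s + bz e) * ζ (s - k - l + bz e) * ζ (s - bz b - l + bz e) * ζ (s - bz b - k + bz e)) /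
      (2 ^ Fintype.card ι * YY τ i0 k 0 * YY τ i0 l 0)
  have hc : ∀ e, c e ∈ K := fun e => by
    have h1 := R8_E (bz e) (bz a) 2
    rw [show ((2 : ℤ) : ℂ) * (E (hf (bz e)) (hf (bz a)) : ℂ) / 2 = E (hf (bz e)) (hf (bz a)) by
      push_cast; ring] at h1
    refine K.div_mem ((((R8_chi _).mul h1).mul
      ((((hζ _).mul (hζ _)).mul (hζ _)).mul (hζ _))).mem hK.1) ?_
    exact K.mul_mem (K.mul_mem (pow_mem (ofNat_mem K 2) _) (YY_zero_mem hK i0 k))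
      (YY_zero_mem hK i0 l)
  refine ⟨fun i j l m => ∑ e, if π e = (i, j, l, m) then c e else 0,
    fun i j l m => sum_ite_mem π hc _, fun x y => ?_⟩
  have h1 := sum_fiber π c fun p => (YY τ i0 (bz p.1) x * YY τ i0 (bz p.2.1) x) *
    (YY τ i0 (bz p.2.2.1) y * YY τ i0 (bz p.2.2.2) y)
  simp only [Fintype.sum_prod_type] at h1
  simp only [mul_assoc _ (YY τ i0 (bz _) x * YY τ i0 (bz _) x)]
  rw [← h1]
  have h2 := XX_law hτ hs x y
  rw [← XX_zero, ← XX_zero] at h2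
  have h3 : ∀ k z, XX τ k z = th2 τ i0 * YY τ i0 k z := fun k z => by
    rw [YY, Pi.smul_apply, smul_eq_mul, mul_inv_cancel_left₀ h0]
  simp only [h3] at h2
  have h4 : th2 τ i0 ^ 4 * (2 ^ Fintype.card ι * YY τ i0 k 0 * YY τ i0 l 0) ≠ 0 :=
    mul_ne_zero (pow_ne_zero _ h0) (mul_ne_zero (mul_ne_zero (pow_ne_zero _ two_ne_zero) hk') hl')
  refine mul_left_cancel₀ h4 ?_
  rw [Finset.mul_sum]
  refine (Eq.trans (by ring) h2).trans (Finset.sum_congr rfl fun e _ => ?_)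
  rw [hY (s + bz e), hY (s - k - l + bz e), hY (s - bz b - l + bz e), hY (s - bz b - k + bz e)]
  simp only [Pi.smul_apply, smul_eq_mul, c, π]
  field_simp

theorem dup_K (hτ : InH τ) (hK : DefX τ K) {i0 : Bits} (h0 : th2 τ i0 ≠ 0) (a : Bits) :
    ∃ c : Bits → ℂ, (∀ b, c b ∈ K) ∧ ∀ x,
      YY τ i0 (bz a) x ^ 4 = ∑ b, c b * YY τ i0 (bz b) (x + x) := by
  choose rd ζ hζ hY using YY_red τ i0
  have hs : bz a + bz a + bz a + bz a = (2 : ℤ) • (bz a + bz a) := by rw [two_smul]; abel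
  let π : Bits → Bits := fun e => rd (bz a + bz a + bz e)
  let c : Bits → ℂ := fun e => chi (bz e) * ee (E (hf (bz e)) (hf (bz a))) *
    ζ (bz a + bz a + bz e) * YY τ i0 (bz e) 0 ^ 3 / 2 ^ Fintype.card ι
  have hc : ∀ e, c e ∈ K := fun e => by
    have h1 := R8_E (bz e) (bz a) 2
    rw [show ((2 : ℤ) : ℂ) * (E (hf (bz e)) (hf (bz a)) : ℂ) / 2 = E (hf (bz e)) (hf (bz a)) by
      push_cast; ring] at h1
    exact K.div_mem (K.mul_mem ((((R8_chi _).mul h1).mul (hζ _)).mem hK.1)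
      (pow_mem (YY_zero_mem hK i0 _) 3)) (pow_mem (ofNat_mem K 2) _)
  refine ⟨fun b => ∑ e, if π e = b then c e else 0, fun b => sum_ite_mem π hc _, fun x => ?_⟩
  rw [← sum_fiber π c fun p => YY τ i0 (bz p) (x + x)]
  have h2 := XX_dup hτ hs x
  simp only [← XX_zero, add_sub_cancel_right, sub_self, zero_add,
    two_smul] at h2
  have h3 : ∀ k z, XX τ k z = th2 τ i0 * YY τ i0 k z := fun k z => by
    rw [YY, Pi.smul_apply, smul_eq_mul, mul_inv_cancel_left₀ h0]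
  simp only [h3] at h2
  have h4 : th2 τ i0 ^ 4 * 2 ^ Fintype.card ι ≠ 0 := mul_ne_zero (pow_ne_zero _ h0)
    (pow_ne_zero _ two_ne_zero)
  refine mul_left_cancel₀ h4 ?_
  rw [Finset.mul_sum]
  refine (Eq.trans (by ring) h2).trans (Finset.sum_congr rfl fun e _ => ?_)
  rw [hY (bz a + bz a + bz e)]
  simp only [Pi.smul_apply, smul_eq_mul, c, π]
  field_simp

end

end MG.B2
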