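import Pool.Agent.Lib.MP_33b3f9_ag.MG.B2.Cmp
import Pool.Agent.Lib.MP_33b3f9_ag.MG.IDefA

/-!
Comparison of the values at the torsion points.
-/

set_option autoImplicit false
set_option linter.unusedSectionVars false

namespace MG.B2

open M4 M4.B2

open Matrix Polynomial

noncomputable section

variable [Dim]

open Pool.Agent.M4.Det

variable {P : Nat.Primes} {ι' : Type} [Fintype ι']

theorem tor_shift {F : VA → ℂ} (hF : ∀ l ∈ TA, UA 1 l F = F) {η x d d' : VA} (hd : d ∈ TA)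
    (hd' : d' ∈ TA) (h1 : 4 • η ∈ TA) (h2 : 2 * EB d η ∈ Zh) (h3 : EB d' x ∈ Zh) :
    UA 1 (η + d) F (x + d') = UA 1 η F x := by
  have h4 := apply_add_of_UA (c := 1) (by rw [one_smul]; exact hF _ (TA.add_mem hd hd')) (x + η)
  rw [UA_apply, UA_apply, show x + d' + (η + d) = x + η + (d + d') by abel, h4, one_mul,
    ← mul_assoc, ← psi_add]
  congr 1
  refine psi_congr ?_
  have h5 := EB_mem h1 hd'
  rw [← Nat.cast_smul_eq_nsmul Af, EB_smul_left] at h5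
  have h6 := Zh.sub_mem (Zh.add_mem h5 (Zh.mul_mem (ofNat_mem Zh 2)
    (Zh.sub_mem (EB_mem hd hd') h3))) h2
  refine (congrArg (· ∈ Zh) ?_).mp h6
  simp only [EB_add_left, EB_add_right, EB_swap η d']
  push_cast
  ring

theorem tor_away {F : VA → ℂ} (hF : ∀ l ∈ TA, UA 1 l F = F) (hP : P.1 ≠ 2) (η : ν → Fin 2)
    {x : VA} (hx : cV P x ∈ IV P) :
    UA 1 (q4 η) F x = UA 1 (away P (q4 η)) F (away P x) := by
  have h4 : ¬ P.1 ∣ 4 := fun hd => cmp_two hP (P.2.dvd_of_dvd_pow (n := 2) (m := 2) hd)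
  conv_lhs => rw [← away_add_iV P (q4 η), ← away_add_iV P x]
  refine tor_shift hF (iV_mem_TA.2 (cmp_unit h4 (cmp_four η))) (iV_mem_TA.2 hx) ?_ ?_ ?_
  · rw [← Submodule.coe_smul_of_tower, ← map_nsmul]
    exact away_mem_Lam P (cmp_four η)
  · rw [EB_swap, EB_Vt_iV, neg_zero, mul_zero]
    exact Zh.zero_mem
  · rw [EB_swap, EB_Vt_iV, neg_zero]
    exact Zh.zero_mem

theorem tor_sur {g : MZ} {M : ℕ} (hg : gᵀ * Matrix.J ι ℤ * g = (M : ℤ) • Matrix.J ι ℤ)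
    (hM : M ≠ 0) (w : Vt P) : ∃ x : Vt P, zM Af g *ᵥ (x : VA) = w := by
  have h := ((Kz.simR_iff _ _).2 hg).mul_adj (Int.natCast_ne_zero.2 hM)
  refine ⟨zV P (Kz.adj g) ((M : ℚ)⁻¹ • w), ?_⟩
  rw [coe_zV, mulVec_mulVec, ← cmp_mul, h, cmp_smul, cmp_one, smul_mulVec, one_mulVec,
    Int.cast_natCast, Nat.cast_smul_eq_nsmul, ← Nat.cast_smul_eq_nsmul ℚ, Submodule.coe_smul,
    smul_inv_smul₀ (Nat.cast_ne_zero.2 hM)]

theorem tor_div {N : ℕ} (hN : N ≠ 0) (a : ν → ℤ) :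
    N • qV (fun i => (a i : ℚ) / N) ∈ TA := mem_TA.2 fun i => by
  rw [Pi.smul_apply, qV, qA, ← map_nsmul, nsmul_eq_mul,
    mul_div_cancel₀ _ (Nat.cast_ne_zero.2 hN), map_intCast]
  exact intCast_mem Zh _

theorem tor_main (e : ℂ ≃+* PadicAlgCl P) (hP : P.1 ≠ 2) {F F' : VA → ℂ}
    (hF : ∀ l ∈ TA, UA 1 l F = F) (hF' : ∀ l ∈ TA, UA 1 l F' = F') (hi : Intg e F)
    (hi' : Intg e F') (W : ∀ l : Nat.Primes, Matrix ν ν ℤ_[l])
    (h8 : ∀ l, l ≠ P → ∀ a b, (8 : ℤ_[l]) ∣ (W l - 1) a b)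
    (hJ : ∀ l, l ≠ P → ∀ x y, EB (mQ (W l) *ᵥ x) (mQ (W l) *ᵥ y) = EB x y)
    (h : ∀ w : Vt P, res (e (F w)) = res (e (F' (toA W *ᵥ (w : VA))))) {N : ℕ} (hN : ¬ P.1 ∣ N)
    {a a' : ν → ℤ} (ha : ∀ l, l ≠ P → ∀ i,
      ((N ^ 2 : ℕ) : ℤ_[l]) ∣ (W l *ᵥ fun j => (a j : ℤ_[l])) i - a' i) (η : ν → Fin 2) :
    ‖e (UA 1 (q4 η) F (qV fun i => (a i : ℚ) / N) -
      UA 1 (q4 η) F' (qV fun i => (a' i : ℚ) / N))‖ < 1 := by
  have h0 : N ≠ 0 := fun h0 => hN (h0 ▸ dvd_zero _)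
  rw [map_sub, ← res_eq_iff (hi.UA _ _ _) (hi'.UA _ _ _),
    tor_away hF hP η (cmp_unit hN (tor_div h0 a)), tor_away hF' hP η (cmp_unit hN (tor_div h0 a'))]
  set x := away P (qV fun i => (a i : ℚ) / N) with hx
  set x' := away P (qV fun i => (a' i : ℚ) / N) with hx'
  set y := away P (q4 η) with hy
  have hy4 : 4 • (y : VA) ∈ TA := by
    rw [← Submodule.coe_smul_of_tower, ← map_nsmul]
    exact away_mem_Lam P (cmp_four η)
  have hP0 : ∀ u v : Vt P, cV P (toA W *ᵥ (u : VA) - v) ∈ IV P := fun u v => by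
    rw [cV_sub, cV_toA_mulVec, cV_Vt, cV_Vt, mulVec_zero, sub_zero]
    exact zero_mem _
  obtain ⟨b, hb, e1⟩ := cmp_half hP (hP0 y y) fun l hl => by
    obtain ⟨W0, h1⟩ := cmp_eight (h8 l hl)
    refine ⟨_, mQ_mulVec_le W0 (mem_TA_iff.1 hy4 l), ?_⟩
    rw [cV_sub, cV_toA_mulVec, h1, cmp_mQ, cV_nsmul, mulVec_smul]
    push_cast
    module
  obtain ⟨b', hb', e2⟩ := cmp_div hN (hP0 x x') fun l hl => by
    choose d hd using ha l hl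
    have hN' : (N : ℚ_[l]) ≠ 0 := Nat.cast_ne_zero.2 h0
    refine ⟨fun i => (d i : ℚ_[l]), fun i => (d i).2, funext fun i => ?_⟩
    have h1 := congrArg ((↑) : ℤ_[l] → ℚ_[l]) (hd i)
    have h2 : (mQ (W l) *ᵥ fun j => (a j : ℚ_[l])) i =
        ((W l *ᵥ fun j => (a j : ℤ_[l])) i : ℤ_[l]) := by
      simp [mQ, mulVec, dotProduct]
    have h3 : ∀ c : ν → ℤ, (fun j => (((c j : ℚ) / N : ℚ) : ℚ_[l])) =
        (N : ℚ_[l])⁻¹ • fun j => (c j : ℚ_[l]) := fun c => by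
      funext j
      simp [div_eq_inv_mul]
    rw [cV_sub, cV_toA_mulVec, hx, hx', cV_away_ne hl, cV_away_ne hl, cV_qV, cV_qV, h3, h3,
      mulVec_smul, ← smul_sub, Pi.smul_apply, Pi.sub_apply, h2, Pi.smul_apply, smul_eq_mul,
      smul_eq_mul, inv_mul_eq_iff_eq_mul₀ hN']
    push_cast at h1
    rw [h1]
    ring
  rw [sub_eq_iff_eq_add'] at e1 e2
  rw [← tor_shift hF' (x := (x' : VA)) (TA.nsmul_mem hb 2) (TA.nsmul_mem hb' N) hy4 ?_ ?_,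
    ← e1, ← e2, UA_apply, UA_apply, ← mulVec_add, ← Submodule.coe_add, map_mul, map_mul,
    res_mul (norm_e_psi e _).le (hi _), res_mul (norm_e_psi e _).le (hi' _), h]
  · congr 5
    refine Af_ext fun l => ?_
    rw [cp_EB, cp_EB, cV_toA_mulVec, cV_toA_mulVec]
    by_cases hl : l = P
    · subst hl
      simp [cV_Vt]
    · exact (hJ l hl _ _).symm
  · have h1 := EB_mem hb hy4
    rw [← Nat.cast_smul_eq_nsmul Af, EB_smul_right] at h1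
    rw [← Nat.cast_smul_eq_nsmul Af, EB_smul_left]
    refine (congrArg (· ∈ Zh) ?_).mp h1
    push_cast
    ring
  · have h1 : N • (x' : VA) ∈ TA := by
      rw [← Submodule.coe_smul_of_tower, ← map_nsmul]
      exact away_mem_Lam P (tor_div h0 a')
    have h2 := EB_mem hb' h1
    rw [← Nat.cast_smul_eq_nsmul Af, EB_smul_right] at h2
    rwa [← Nat.cast_smul_eq_nsmul Af, EB_smul_left]

/-- The comparison at all torsion points of order prime to `P`. -/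
theorem Setup.tor (S : Setup P ι') {g g' : Matrix ν ν ℤ} {M M' : ℕ} {θ θ' Θ Θ' : VA → ℂ}
    {v v' : (ν → Fin 2) → (ν → ℚ) → ℂ} (hθ : ThLine S.D.Γ g M θ Θ v)
    (hθ' : ThLine S.D.Γ g' M' θ' Θ' v') (hg : gᵀ * Matrix.J ι ℤ * g = (M : ℤ) • Matrix.J ι ℤ)
    (hM : ¬ P.1 ∣ M) (γ : Vt P →ₗ[ℚ] Vt P)
    (hγ : ∀ x y : Vt P, (M' : Af) * EB (γ x : VA) (γ y : VA) = (M : Af) * EB (x : VA) (y : VA))
    (W : ∀ l : Nat.Primes, Matrix ν ν ℤ_[l]) (hW : ∀ l, l ≠ P → ∀ x : Vt P,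
      zM ℚ_[l] g' *ᵥ cV l (γ x : VA) = mQ (W l) *ᵥ (zM ℚ_[l] g *ᵥ cV l (x : VA)))
    (h8 : ∀ l, l ≠ P → ∀ a b, (8 : ℤ_[l]) ∣ (W l - 1) a b)
    (hJ : ∀ l, l ≠ P → ∀ x y, EB (mQ (W l) *ᵥ x) (mQ (W l) *ᵥ y) = EB x y)
    {c : ℕ} (hc : ¬ P.1 ∣ c)
    (hmain : ∀ f ∈ GG S.D S.e M', ∃ h ∈ GG S.D S.e (M * c ^ 2), ∀ x : Vt P,
      h (x, 0) = f (γ (c • x), 0)) {N : ℕ} (hN : ¬ P.1 ∣ N) {u u' : MZ}
    (hu : ∀ l, l ≠ P → ∀ i j,
      ((N ^ 2 : ℕ) : ℤ_[l]) ∣ (W l * zM ℤ_[l] u - zM ℤ_[l] u') i j) :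
    SameRed S.e (Tor v N u) (Tor v' N u') := by
  obtain ⟨κ, κ', h1, h2, ⟨η0, h3⟩, h4⟩ :=
    S.cmp hθ hθ' hg hM γ hγ (fun l hl => ⟨W l, hW l hl, h8 l hl⟩) hc hmain
  have hM0 : M ≠ 0 := fun h0 => hM (h0 ▸ dvd_zero _)
  have hs : ∀ (k : ℂ) (F : VA → ℂ) y x, k * UA 1 y F x = UA 1 y (k • F) x := fun k F y x => by
    rw [UA_smul]; rfl
  have hi : Intg S.e (κ • Θ) := fun z => by
    have h5 := ((Kz.simR_iff _ _).2 hg).mul_adj (Int.natCast_ne_zero.2 hM0)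
    have h6 := h1 (zM Af (Kz.adj g) *ᵥ ((M : ℚ)⁻¹ • z))
    rwa [hθ.comp, mulVec_mulVec, ← cmp_mul, h5, cmp_smul, cmp_one, smul_mulVec, one_mulVec,
      Int.cast_natCast, Nat.cast_smul_eq_nsmul, ← Nat.cast_smul_eq_nsmul ℚ,
      smul_inv_smul₀ (Nat.cast_ne_zero.2 hM0)] at h6
  have hi' : Intg S.e (κ' • Θ') := h2
  refine ⟨κ, κ', fun i => ?_, ⟨(η0, 0), ?_⟩, fun i => ?_⟩
  · rw [Tor, hθ'.val, hs]
    exact hi'.UA _ _ _
  · rw [← h3, Tor]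
    congr 4
    funext k
    simp [Kz.lift, mulVec, dotProduct]
  · rw [Tor, Tor, hθ.val, hθ'.val, hs, hs]
    refine tor_main S.e S.odd (fun l hl => by rw [UA_smul, hθ.per l hl])
      (fun l hl => by rw [UA_smul, hθ'.per l hl]) hi hi' W h8 hJ (fun w => ?_) hN
      (fun l hl k => ?_) _
    · obtain ⟨x, hx⟩ := tor_sur hg hM0 w
      have h5 : zM Af g' *ᵥ (γ x : VA) = toA W *ᵥ (w : VA) := VA_ext fun l => by
        rw [cmp_cV, cV_toA_mulVec]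
        by_cases hl : l = P
        · subst hl
          simp [cV_Vt]
        · rw [hW l hl, ← hx, cmp_cV]
      have h6 := h4 x
      rwa [hθ.comp, hθ'.comp, hx, h5] at h6
    · have h5 : ∀ u : MZ, (fun j => ((u *ᵥ Kz.lift i.2) j : ℤ_[l])) =
          zM ℤ_[l] u *ᵥ fun j => (Kz.lift i.2 j : ℤ_[l]) := fun u => by
        funext j
        simp [mulVec, dotProduct]
      rw [h5, congrFun (h5 u') k, mulVec_mulVec, ← Pi.sub_apply, ← sub_mulVec]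
      exact Finset.dvd_sum fun j _ => (hu l hl k j).mul_right _

end

end MG.B2
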