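import Pool.Agent.Lib.MP_33b3f9_ag.MG.B2.Dec
import Pool.Agent.Lib.MP_33b3f9_ag.MG.B2.Tor

/-!
The comparison theorem for a setup.
-/

set_option autoImplicit false
set_option linter.unusedSectionVars false

namespace MG.B2

open M4 M4.B2

open Matrix Polynomial

noncomputable section

variable [Dim]

open Pool.Agent.M4.Det

variable {P : Nat.Primes} {ι' : Type} [Fintype ι'] {S : Setup P ι'} {A : Type} [CommRing A]
  (T : Act S A) {s : PadicAlgCl P ≃ₐ[ℚ_[P]] PadicAlgCl P} (hs : IsFrob s)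

/-- Reduce `δ` modulo `Q`, multiply by `M'`, apply `main` with `d = M' c ^ 2 M`, then `tor`. -/
theorem Act.few (ho : Outs (T.toTD hs)) {Q : A[X]} (hQ : Q.Monic) {N₀ : ℕ}
    (hd : Q.natDegree ≤ N₀) (h1 : 1 ≤ N₀) (hQ0 : (T.toTD hs).polV Q = 0) {g g' : MZ} {M M' : ℕ}
    {θ θ' Θ Θ' : VA → ℂ} {v v' : (ν → Fin 2) → (ν → ℚ) → ℂ} (hθ : ThLine S.D.Γ g M θ Θ v)
    (hθ' : ThLine S.D.Γ g' M' θ' Θ' v') (hg : gᵀ * Matrix.J ι ℤ * g = (M : ℤ) • Matrix.J ι ℤ)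
    (hg' : g'ᵀ * Matrix.J ι ℤ * g' = (M' : ℤ) • Matrix.J ι ℤ) (hM : ¬ P.1 ∣ M) (hM' : ¬ P.1 ∣ M')
    (hMM : M ≡ M' [MOD P.1 ^ N₀]) (δ : A[X]) {c : ℕ} (hc : ¬ P.1 ∣ c)
    (W : ∀ l : Nat.Primes, Matrix ν ν ℤ_[l]) (hW : ∀ l, l ≠ P →
      zM ℚ_[l] g' * mQ (evZ T.ψ (S.R s l : Matrix ν ν ℤ_[l]) (C (c : A) + C ((P.1 : A) ^ N₀) * δ)) =
        (c : ℚ_[l]) • (mQ (W l) * zM ℚ_[l] g))
    (h8 : ∀ l, l ≠ P → ∀ a b, (8 : ℤ_[l]) ∣ (W l - 1) a b)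
    (hJ : ∀ l, l ≠ P → ∀ x y, EB (mQ (W l) *ᵥ x) (mQ (W l) *ᵥ y) = EB x y) {N : ℕ}
    (hN : ¬ P.1 ∣ N) {u u' : MZ} (hu : ∀ l, l ≠ P → ∀ i j,
      ((N ^ 2 : ℕ) : ℤ_[l]) ∣ (W l * zM ℤ_[l] u - zM ℤ_[l] u') i j) :
    SameRed S.e (Tor v N u) (Tor v' N u') := by
  have hc0 : c ≠ 0 := fun e => hc (e ▸ dvd_zero _)
  have hcM : ¬ P.1 ∣ M' * c := fun h => (P.2.dvd_mul.1 h).elim hM' hc
  let G : Vt P →ₗ[ℚ] Vt P := (c : ℚ)⁻¹ •
    ((T.toTD hs).polV (C (c : A) + C ((P.1 : A) ^ N₀) * δ)).toAddMonoidHom.toRatLinearMap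
  have hG : ∀ x, G x = (c : ℚ)⁻¹ • (T.toTD hs).polV (C (c : A) + C ((P.1 : A) ^ N₀) * δ) x :=
    fun _ => rfl
  have hG1 : ∀ l, l ≠ P → ∀ x : Vt P,
      zM ℚ_[l] g' *ᵥ cV l (G x : VA) = mQ (W l) *ᵥ (zM ℚ_[l] g *ᵥ cV l (x : VA)) :=
    fun l hl x => by
      rw [hG, Submodule.coe_smul, cV_qsmul, T.cV_polV, mulVec_smul, mulVec_mulVec, hW l hl,
        smul_mulVec, Rat.cast_inv, Rat.cast_natCast, inv_smul_smul₀ (Nat.cast_ne_zero.2 hc0),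
        mulVec_mulVec]
  have hγ : ∀ x y : Vt P, (M' : Af) * EB (G x : VA) (G y : VA) = (M : Af) * EB (x : VA) (y : VA) :=
    fun x y => Af_ext fun l => by
      rw [map_mul, map_mul, cp_EB, cp_EB, map_natCast, map_natCast]
      by_cases hl : l = P
      · subst hl
        simp [cV_Vt]
      · rw [← cmp_EB hg', hG1 l hl, hG1 l hl, hJ l hl, cmp_EB hg]
  have h2 : ∀ x, (T.toTD hs).polV (C ((M' * c : ℕ) : A) + C ((P.1 : A) ^ N₀) *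
      (C (M' : A) * (δ %ₘ Q))) x = (M' * c) • G x := fun x => by
    have h3 : C ((M' * c : ℕ) : A) + C ((P.1 : A) ^ N₀) * (C (M' : A) * (δ %ₘ Q)) =
        M' • (C (c : A) + C ((P.1 : A) ^ N₀) * δ) -
          Q * (C ((P.1 : A) ^ N₀) * C (M' : A) * (δ /ₘ Q)) := by
      rw [modByMonic_eq_sub_mul_div, nsmul_eq_mul, Nat.cast_mul, map_mul, map_natCast C M']
      ring
    rw [h3, map_sub, map_mul, hQ0, zero_mul, sub_zero, map_nsmul, hG, mul_smul,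
      ← Nat.cast_smul_eq_nsmul ℚ c, smul_inv_smul₀ (Nat.cast_ne_zero.2 hc0)]
    rfl
  obtain ⟨t, ht, H⟩ := ho.main (C (M' : A) * (δ %ₘ Q)) N₀ (M' * c) (M' * c ^ 2 * M)
    ((natDegree_C_mul_le _ _).trans ((natDegree_modByMonic_le _ hQ).trans hd)) hcM (by
      rw [show (M' * c) ^ 2 = M' * c ^ 2 * M' by ring]
      exact hMM.mul_left _) (fun x y => by
      rw [h2, h2]
      change epsR S.e _ _ = epsR S.e x y ^ _
      rw [epsR, epsR, ← res_pow (norm_e_psi _ _).le, ← map_pow, ← psi_nsmul,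
        Submodule.coe_smul_of_tower, Submodule.coe_smul_of_tower, ← Nat.cast_smul_eq_nsmul Af,
        ← Nat.cast_smul_eq_nsmul Af, EB_smul_left, EB_smul_right]
      congr 3
      push_cast
      linear_combination qA (1 / 2) * M' * c ^ 2 * hγ x y) h1
  refine S.tor hθ hθ' hg hM G hγ W hG1 h8 hJ (c := M' * c * t)
    (fun h => (P.2.dvd_mul.1 h).elim hcM ht) (fun f hf => ?_) hN hu
  obtain ⟨h, h3, h4⟩ := H M' hM' f hf
  refine ⟨h, ?_, fun x => ?_⟩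
  · rw [show M * (M' * c * t) ^ 2 = M' * (M' * c ^ 2 * M) * t ^ 2 by ring]
    exact h3
  · rw [h4, h2, mul_smul (M' * c), map_nsmul _ (M' * c)]

end

end MG.B2
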