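import Pool.Agent.Lib.MP_33b3f9_ag.MG.B2.Ext3
import Pool.Agent.Lib.MP_33b3f9_ag.MG.B2.LineDefs
import Pool.Agent.Lib.MP_33b3f9_ag.M4.ThExt
import Pool.Agent.Lib.MP_33b3f9_ag.M4.KzBound

/-!
The theta line attached to an integral similitude exists.
-/

set_option autoImplicit false
set_option linter.unusedSectionVars false

namespace MG.B2

open M4 M4.B2

open Matrix

noncomputable section

variable [Dim]

variable {τ : Mat} {g : Matrix ν ν ℤ} {M : ℕ}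

theorem zr_rz (g : Matrix ν ν ℤ) (n : ν → ℤ) : zr g *ᵥ rz n = rz (g *ᵥ n) := Kz.mR_mulVec g n

theorem zr_rQ (g : Matrix ν ν ℤ) (q : ν → ℚ) : zr g *ᵥ rQ q = rQ (zM ℚ g *ᵥ q) := by
  funext i; simp [zr, rQ, zM, mulVec, dotProduct]

theorem zM_zQ (g : Matrix ν ν ℤ) (n : ν → ℤ) : zM ℚ g *ᵥ zQ n = zQ (g *ᵥ n) := by
  funext i; simp [zQ, zM, mulVec, dotProduct]

theorem zM_qV (g : Matrix ν ν ℤ) (q : ν → ℚ) : zM Af g *ᵥ qV q = qV (zM ℚ g *ᵥ q) := by
  funext i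
  simp only [zM, qV, qA, mulVec, dotProduct, map_apply, map_sum, map_mul, map_intCast]

theorem zM_mem_TA (g : Matrix ν ν ℤ) {t : VA} (ht : t ∈ TA) : zM Af g *ᵥ t ∈ TA :=
  mem_TA.2 fun _ => Zh.sum_mem fun j _ => Zh.mul_mem (intCast_mem Zh _) (mem_TA.1 ht j)

theorem zM_mul (R : Type) [CommRing R] (g h : Matrix ν ν ℤ) : zM R (g * h) = zM R g * zM R h :=
  Matrix.map_mul (f := Int.castRingHom R)

theorem zM_natCast (R : Type) [CommRing R] (M : ℕ) (x : ν → R) :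
    zM R ((M : ℤ) • 1) *ᵥ x = (M : R) • x := by
  have : zM R ((M : ℤ) • 1) = (M : R) • 1 := by
    ext i j
    simp only [zM, map_apply, Matrix.smul_apply, one_apply, smul_eq_mul]
    split_ifs <;> simp
  rw [this, smul_mulVec, one_mulVec]

theorem EB_zM (hs : Sim (zr g) M) (R : Type) [CommRing R] (x y : ν → R) :
    EB (zM R g *ᵥ x) (zM R g *ᵥ y) = M * EB x y := by
  have h := (Kz.simR_of_sim (h := g) (m := (M : ℤ)) (by rwa [Int.cast_natCast])).map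
    (Int.castRingHom R) x y
  rwa [map_natCast] at h

theorem adj_zM (hs : Sim (zr g) M) (R : Type) [CommRing R] (x : ν → R) :
    zM R (Kz.adj g) *ᵥ (zM R g *ᵥ x) = (M : R) • x := by
  have h := (Kz.simR_of_sim (h := g) (m := (M : ℤ)) (by rwa [Int.cast_natCast])).adj_mul
  rw [mulVec_mulVec, ← zM_mul, h, zM_natCast]

theorem zM_adj (hs : Sim (zr g) M) (hM : 0 < M) (R : Type) [CommRing R] (x : ν → R) :
    zM R g *ᵥ (zM R (Kz.adj g) *ᵥ x) = (M : R) • x := by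
  have h := (Kz.simR_of_sim (h := g) (m := (M : ℤ)) (by rwa [Int.cast_natCast])).mul_adj
    (by exact_mod_cast hM.ne')
  rw [mulVec_mulVec, ← zM_mul, h, zM_natCast]

theorem chi_add (n n' : ν → ℤ) :
    chi (n + n') = ee (-(E (rz n') (rz n) : ℂ) / 2) * (chi n * chi n') := by
  have h := cz_dot (n' ∘ Sum.inl) (n ∘ Sum.inr)
  rw [chi_eq, chi_eq, chi_eq, ← ee_add, ← ee_add, E_cast, rz_add, fa_add, fb_add]
  refine Kz.ee_congr (∑ i, (n' ∘ Sum.inl) i * (n ∘ Sum.inr) i) ?_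
  rw [← h, ← fa_rz, ← fb_rz, add_dotProduct, dotProduct_add, dotProduct_add,
    dotProduct_comm (fb (rz n')) (fa (rz n))]
  ring

theorem chiA_qV (a : ν → ℤ) {b : VA} (hb : b ∈ TA) : chiA (qV (zQ a) + 2 • b) = chi a := by
  have h1 : chi a = psi (qA (1 / 2 * ((∑ i, a (Sum.inl i) * a (Sum.inr i) : ℤ) : ℚ))) := by
    rw [psi_qA, chi, ← ee_half_int]
    congr 1
    push_cast
    ring
  have h2 : ∀ i, qV (zQ a) i = (a i : Af) := fun i => map_intCast (algebraMap ℚ Af) (a i)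
  have h3 : qA (1 / 2) * 2 = 1 := by
    rw [qA, ← map_ofNat (algebraMap ℚ Af) 2, ← map_mul, ← map_one (algebraMap ℚ Af)]
    norm_num
  rw [h1, chiA]
  refine psi_congr ?_
  have h4 : qA (1 / 2) * ∑ i, (qV (zQ a) + 2 • b) (Sum.inl i) * (qV (zQ a) + 2 • b) (Sum.inr i) -
      qA (1 / 2 * ((∑ i, a (Sum.inl i) * a (Sum.inr i) : ℤ) : ℚ)) =
      ∑ i, ((a (Sum.inl i) : Af) * b (Sum.inr i) + b (Sum.inl i) * a (Sum.inr i) +
        2 * (b (Sum.inl i) * b (Sum.inr i))) := by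
    rw [qA, qA, map_mul, map_intCast, ← mul_sub, Int.cast_sum, ← Finset.sum_sub_distrib,
      Finset.mul_sum]
    refine Finset.sum_congr rfl fun i _ => ?_
    rw [Pi.add_apply, Pi.add_apply, h2, h2, two_nsmul, Pi.add_apply, Pi.add_apply, Int.cast_mul]
    rw [qA] at h3
    linear_combination ((a (Sum.inl i) : Af) * b (Sum.inr i) + b (Sum.inl i) * a (Sum.inr i) +
      2 * (b (Sum.inl i) * b (Sum.inr i))) * h3
  rw [h4]
  have h5 := mem_TA.1 hb
  exact Zh.sum_mem fun i _ => Zh.add_mem (Zh.add_mem (Zh.mul_mem (intCast_mem Zh _) (h5 _))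
    (Zh.mul_mem (h5 _) (intCast_mem Zh _))) (Zh.mul_mem (ofNat_mem Zh 2) (Zh.mul_mem (h5 _) (h5 _)))

theorem sim_smul {G : Matrix ν ν ℝ} {m : ℝ} (h : Sim G m) (c : ℝ) : Sim (c • G) (c ^ 2 * m) :=
  fun x y => by rw [smul_mulVec, smul_mulVec, E_smul_left, E_smul_right, h]; ring

theorem U_sim {G : Matrix ν ν ℝ} {m : ℝ} (h : Sim G m) (f : (ν → ℝ) → ℂ) (y : ν → ℝ) :
    U m y (fun x => f (G *ᵥ x)) = fun x => U 1 (G *ᵥ y) f (G *ᵥ x) := by
  funext x
  rw [U_apply, U_apply, h, mulVec_add]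
  push_cast
  rw [one_mul]

/-- Invariance under the generators gives invariance under the lattice. -/
theorem U_of_gen {G : Matrix ν ν ℝ} {m : ℝ} (hG : Sim G m) (hm : m ≠ 0) {f : (ν → ℝ) → ℂ}
    (h : ∀ i : ν, ∃ l, G *ᵥ l = rz (Pi.single i 1) ∧ U m l f = f) (n : ν → ℤ) (l : ν → ℝ)
    (hl : G *ᵥ l = rz n) : U m l f = chi n • f := by
  have hinj : ∀ l l', G *ᵥ l = G *ᵥ l' → l = l' := fun l l' h =>
    Matrix.mulVec_injective_of_isUnit ((Matrix.isUnit_iff_isUnit_det G).2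
      (isUnit_iff_ne_zero.2 (hG.det_ne_zero hm))) h
  let S : AddSubgroup (ν → ℤ) :=
    { carrier := {n | ∃ l, G *ᵥ l = rz n ∧ U m l f = chi n • f}
      zero_mem' := ⟨0, by rw [mulVec_zero, Kz.rz_zero], by funext x; simp [U, E, ee, chi]⟩
      add_mem' := by
        rintro n n' ⟨l, hl, h1⟩ ⟨l', hl', h2⟩
        refine ⟨l + l', by rw [mulVec_add, hl, hl', rz_add], ?_⟩
        have h3 := U_U m l l' f
        have h4 : (m : ℂ) * E l' l = E (rz n') (rz n) := by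
          rw [← hl, ← hl', hG]; push_cast; rfl
        rw [h2, U_smul, h1, h4] at h3
        rw [chi_add, mul_smul, mul_comm (chi n), mul_smul, h3, smul_smul, ← ee_add, neg_div,
          neg_add_cancel, Kz.ee_zero, one_smul]
      neg_mem' := by
        rintro n ⟨l, hl, h1⟩
        refine ⟨-l, by rw [mulVec_neg, hl, rz_neg], ?_⟩
        have h3 := U_neg_U m l f
        have h4 : chi (-n) = chi n := by simp [chi]
        rw [h1, U_smul] at h3
        have h5 := congrArg (fun F => chi n • F) h3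
        simp only [smul_smul, ← sq, chi_sq, one_smul] at h5
        rw [h4, h5] }
  have hS : n ∈ S := by
    rw [pi_eq_sum_univ' n]
    refine S.sum_mem fun i _ => S.zsmul_mem ?_ _
    obtain ⟨l, hl, h1⟩ := h i
    refine ⟨l, hl, ?_⟩
    have : chi (Pi.single i 1 : ν → ℤ) = 1 := by
      rcases i with i | i <;> simp [chi, Pi.single_apply]
    rw [this, one_smul, h1]
  obtain ⟨l', hl', h1⟩ := hS
  rw [hinj l l' (hl.trans hl'.symm), h1]

theorem abv_root (w : AbsoluteValue ℂ ℝ) {z : ℂ} {n : ℕ} (hn : n ≠ 0) (h : z ^ n = 1) :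
    w z = 1 := by
  have : w z ^ n = 1 := by rw [← map_pow, h, map_one]
  exact (pow_eq_one_iff_of_nonneg (w.nonneg z) hn).1 this

theorem exists_rq (q : ν → ℚ) : ∃ (N : ℕ) (a : ν → ℤ), N ≠ 0 ∧ rQ q = Kz.rq N a := by
  obtain ⟨N, hN, h⟩ := exists_nsmul_mem_TA (qV q)
  obtain ⟨a, ha⟩ := exists_div hN.ne' h
  exact ⟨N, a, hN.ne', ha⟩

theorem Per.sim {n : ℕ} {f : (ν → ℝ) → ℂ} (hf : Per n f) (hs : Sim (zr g) M) :
    Per (n * M) fun x => f (zr g *ᵥ x) := fun l => funext fun x => by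
  rw [← congrFun (hf (g *ᵥ l)) (zr g *ᵥ x), U_apply, U_apply, ← zr_rz, hs, mulVec_add]
  congr 2
  push_cast
  ring

theorem ext_sim {n : ℕ} {f : (ν → ℝ) → ℂ} (hf : Per n f) (hs : Sim (zr g) M) (z : VA) :
    ext (n * M) (fun x => f (zr g *ᵥ x)) z = ext n f (zM Af g *ᵥ z) := by
  obtain ⟨q, t, ht, rfl⟩ := exists_split z
  rw [ext_eq (hf.sim hs) q ht, mulVec_add, zM_qV, ext_eq hf _ (zM_mem_TA g ht), ← zM_qV,
    EB_zM hs, zr_rQ]
  congr 2
  push_cast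
  ring

theorem GA_end (hτ : InH τ) (hs : Sim (zr g) M) (hM : 0 < M) (h : act (zr g) τ = τ) (n : ℕ)
    (F : VA → ℂ) (hF : F ∈ GA τ n) : (fun u => F (zM Af g *ᵥ u)) ∈ GA τ (n * M) := by
  obtain ⟨f, hf, rfl⟩ := mem_GA.1 hF
  have h1 := rel_act hs (by exact_mod_cast hM) hτ
  rw [h] at h1
  have h2 := Hol.comp_rel hτ.1 hτ.1 hs h1 (mem_Gam.1 hf).1
  rw [← Nat.cast_mul, mul_assoc] at h2
  exact ⟨_, mem_Gam_of_per h2 ((Per.of_mem hf).sim hs), funext (ext_sim (Per.of_mem hf) hs)⟩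

theorem sim_adj (hs : Sim (zr g) M) (hM : 0 < M) : Sim (zr (adj g)) M := fun x y => by
  have hM' : (M : ℝ) ≠ 0 := by exact_mod_cast hM.ne'
  have h1 := hs (zr (adj g) *ᵥ x) (zr (adj g) *ᵥ y)
  have h2 : ∀ x, zr g *ᵥ (zr (adj g) *ᵥ x) = (M : ℝ) • x := zM_adj hs hM ℝ
  rw [h2, h2, E_smul_left, E_smul_right] at h1
  exact (mul_left_cancel₀ hM' h1).symm

theorem act_adj (hτ : InH τ) (hs : Sim (zr g) M) (hM : 0 < M) (h : act (zr g) τ = τ) :
    act (zr (adj g)) τ = τ := by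
  have hM' : (0 : ℝ) < M := by exact_mod_cast hM
  have h1 := act_mul (g := zr (adj g)) (den_det_ne_zero hs hM' hτ)
    (by rw [h]; exact den_det_ne_zero (sim_adj hs hM) hM' hτ)
  have h2 : zr (adj g) * zr g = (M : ℝ) • 1 := ext_of_mulVec_single fun i => by
    rw [← mulVec_mulVec, smul_mulVec, one_mulVec]
    exact adj_zM hs ℝ _
  rw [h, h2, act_smul hM'.ne', act_one] at h1
  exact h1.symm

theorem U_XX0 (τ : Mat) (η : ν → Fin 2) :
    U ((4 * 1 : ℕ) : ℝ) (rQ fun i => ((η i : ℕ) : ℚ) / 4) (XX τ 0) = XX τ (bz η) := by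
  have h2 : rQ (fun i => ((η i : ℕ) : ℚ) / 4) = (4 : ℝ)⁻¹ • rz (bz η) := by
    funext i; simp [rQ, rz, bz, div_eq_inv_mul]
  funext x
  rw [U_apply, Kz.XX_def, Kz.XX_def, h2, hf, hf, Kz.rz_zero, smul_zero, add_zero, smul_add,
    smul_smul, E_smul_left, Kz.E_eq, ← mul_assoc, ← ee_add]
  congr 2
  · simp [Kz.Ef]
  · norm_num

theorem exists_line (hτ : InH τ) (hs : Sim (zr g) M)
    (hM : 0 < M) : ∃ θ Θ, ThLine (GA τ) g M θ Θ (xx (act (zr g) τ)) := by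
  have hM' : (0 : ℝ) < M := by exact_mod_cast hM
  have hτ' := inH_act hs hM' hτ
  have hd := den_det_ne_zero hs hM' hτ
  generalize hτ0 : act (zr g) τ = τ' at hτ'
  have hrel : ∀ c : ℝ, 0 < c → Rel (c • zr g) τ τ' := fun c hc => by
    have := rel_act (sim_smul hs c) (by positivity) hτ
    rwa [act_smul hc.ne', hτ0] at this
  have e4 : (2 : ℝ) ^ 2 * M = ((4 * M : ℕ) : ℝ) := by push_cast; ring
  have hs2 : Sim ((2 : ℝ) • zr g) ((4 * M : ℕ) : ℝ) := e4 ▸ sim_smul hs 2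
  let θ₀ : (ν → ℝ) → ℂ := fun x => Th τ' (((2 : ℝ) • zr g) *ᵥ x)
  have hU : ∀ (n : ν → ℤ) l, ((2 : ℝ) • zr g) *ᵥ l = rz n →
      U ((4 * M : ℕ) : ℝ) l θ₀ = chi n • θ₀ := fun n l hl => by
    rw [U_sim hs2, hl, U_rz_Th]
    rfl
  have hper : Per M θ₀ := fun l => by
    rw [hU ((2 : ℤ) • (g *ᵥ l)) _ (by rw [smul_mulVec, zr_rz, rz_smul]; norm_num), Kz.chi_two,
      one_smul]
  have hhol : θ₀ ∈ Hol τ ((4 * M : ℕ) : ℝ) := by
    have := Hol.comp_rel hτ.1 hτ'.1 hs2 (hrel 2 two_pos) (Th_mem_Hol hτ')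
    rwa [one_mul] at this
  have hX : Per 1 (XX τ' 0) := Per.of_mem (XX_mem hτ' 0)
  have h00 : ∀ η, xx τ' η 0 = th2 τ' η := fun η =>
    (congrArg (XX τ' (bz η)) rQ_zero).trans (XX_zero _ _)
  refine ⟨ext M θ₀, ext 1 (XX τ' 0), ext_mem (mem_Gam_of_per hhol hper), fun y hy => ?_,
    fun c hc F hF h => ?_, fun x => ?_, fun l hl => UA_ext_TA hX hl, fun η x => ?_,
    by simp only [h00]; exact exists_null_ne_zero hτ', fun w hw h2 x => ?_⟩
  · obtain ⟨q, t, ht, rfl⟩ := exists_split y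
    have hb := zM_mem_TA g ht
    rw [mulVec_add] at hy ⊢
    have h1 : 2 • (zM Af g *ᵥ qV q) ∈ TA := by
      have := TA.sub_mem hy (TA.nsmul_mem hb 2)
      rwa [nsmul_add, add_sub_cancel_right] at this
    have h2 : 2 • (zM Af g *ᵥ qV q) = qV ((2 : ℚ) • (zM ℚ g *ᵥ q)) := by
      rw [zM_qV, two_nsmul, two_smul, qV_add]
    obtain ⟨a, ha⟩ := qV_mem_TA.1 (h2 ▸ h1)
    have hq : (4 * M) • qV q ∈ TA := by
      have h3 := zM_mem_TA (Kz.adj g) (TA.nsmul_mem h1 2)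
      rw [nsmul_VA, nsmul_VA, mulVec_smul, mulVec_smul, adj_zM hs, smul_smul, smul_smul] at h3
      rw [nsmul_VA]
      refine (congrArg (· • qV q ∈ TA) ?_).mp h3
      push_cast
      ring
    rw [UA_ext hper ht hq, hU a _ (by
      rw [smul_mulVec, zr_rQ, ← rQ_zQ, ← ha, rQ_smul]; norm_num), ext_smul, nsmul_add, h2, ha,
      chiA_qV a hb, psi_eq_one.2, one_smul]
    have h3 := EB_mem hb h1
    rw [nsmul_VA, EB_smul_right, EB_zM hs] at h3
    have h4 : ((2 * M : ℕ) : Af) * EB t (qV q) = ((2 : ℕ) : Af) * (M * EB t (qV q)) := by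
      rw [Nat.cast_mul, mul_assoc]
    rw [h4]
    exact Zh.neg_mem h3
  · obtain ⟨f, hf, rfl⟩ := mem_GA.1 hF
    have hc' : (0 : ℝ) < 2 * c := by positivity
    have hc0 : (c : ℚ) ≠ 0 := by exact_mod_cast hc.ne'
    have hM0 : (M : ℚ) ≠ 0 := by exact_mod_cast hM.ne'
    have e5 : (2 * c : ℝ) ^ 2 * M = ((4 * (M * c ^ 2) : ℕ) : ℝ) := by push_cast; ring
    have hs3 : Sim ((2 * c : ℝ) • zr g) ((4 * (M * c ^ 2) : ℕ) : ℝ) := e5 ▸ sim_smul hs _
    have hpos : (0 : ℝ) < ((4 * (M * c ^ 2) : ℕ) : ℝ) := e5 ▸ by positivity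
    obtain ⟨κ, hκ⟩ := eq_Th_comp hτ hτ' hpos hs3 (hrel _ hc') (mem_Gam.1 hf).1
      (U_of_gen hs3 hpos.ne' fun i => by
        let y : ν → ℚ := (2 * c * M : ℚ)⁻¹ • zQ (Kz.adj g *ᵥ Pi.single i 1)
        have h0 : zQ (Pi.single i 1) = Pi.single i 1 := by
          funext j; simp [zQ, Pi.single_apply]
        have h1 : (2 * c : ℚ) • (zM ℚ g *ᵥ y) = Pi.single i 1 := by
          rw [mulVec_smul, ← zM_zQ, zM_adj hs hM, smul_smul, smul_smul, h0,
            show (2 * c : ℚ) * (2 * c * M : ℚ)⁻¹ * M = 1 by field_simp, one_smul]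
        have h2 : (4 * (M * c ^ 2)) • qV y ∈ TA := by
          rw [nsmul_VA, ← map_natCast (algebraMap ℚ Af), ← qA, ← qsmul_VA, ← qV_smul, smul_smul,
            show ((4 * (M * c ^ 2) : ℕ) : ℚ) * (2 * c * M : ℚ)⁻¹ = ((2 * c : ℕ) : ℚ) by
              push_cast; field_simp; norm_num, qV_smul, qsmul_VA, qA, map_natCast, ← nsmul_VA]
          exact TA.nsmul_mem (qV_zQ_mem _) _
        have h3 := h i y (by rw [← h1, ← Nat.cast_smul_eq_nsmul ℚ]; push_cast; rfl)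
        rw [UA_ext_qV (Per.of_mem hf) h2] at h3
        refine ⟨rQ y, ?_, eq_of_ext (Hol.continuous (Hol.U hτ.1 (mem_Gam.1 hf).1 _))
          (Hol.continuous (mem_Gam.1 hf).1) ((Per.of_mem hf).U h2) (Per.of_mem hf) h3⟩
        rw [smul_mulVec, zr_rQ, ← rQ_zQ, h0, ← h1, rQ_smul]
        push_cast
        rfl)
    refine ⟨κ, fun z => ?_⟩
    have h5 := ext_scale hper (c : ℤ) z
    simp only [Int.natAbs_natCast, Int.cast_natCast, natCast_zsmul] at h5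
    have h6 : f = κ • fun x => θ₀ ((c : ℝ) • x) := funext fun x => by
      rw [hκ, Pi.smul_apply, smul_eq_mul]
      simp only [θ₀, smul_mulVec, mulVec_smul, smul_smul]
    rw [← h5, h6, ext_smul, Pi.smul_apply, smul_eq_mul]
  · rw [← ext_sim hX hs, one_mul]
    refine congrArg (fun F => ext M F x) (funext fun z => ?_)
    rw [Kz.XX_def]
    simp [θ₀, hf, smul_mulVec]
  · rw [q4, UA_ext_qV hX (cmp_four η), ext_qV (hX.U (cmp_four η)), U_XX0]
    rfl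
  · obtain ⟨η, hη⟩ := Finite.exists_max fun η => w (th2 τ' η)
    obtain ⟨q, t, ht, rfl⟩ := exists_split x
    obtain ⟨N, a, hN, ha⟩ := exists_rq q
    obtain ⟨n, hn, hp⟩ := exists_psi_pow (-((2 * 1 : ℕ) * EB t (qV q)))
    refine ⟨η, ?_⟩
    rw [ext_eq hX q ht, map_mul, abv_root w hn.ne' hp, one_mul, ha, h00]
    refine Kz.bound_abv w hw h2 hτ' (fun k => ?_) hN 0 a
    obtain ⟨e, c, hc, h3⟩ := XX_red τ' k
    rw [h3, Pi.smul_apply, smul_eq_mul, map_mul, abv_root w (by norm_num) hc.pow, one_mul, XX_zero]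
    exact hη e

end

end MG.B2
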