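import Pool.Agent.Lib.MP_33b3f9_ag.MG.B2.ToTD
import Pool.Agent.Lib.MP_33b3f9_ag.MG.CP.Out

/-!
The theory in characteristic `p` applies to the reduced theta data.
-/

set_option autoImplicit false
set_option linter.unusedSectionVars false

namespace MG.B2

open M4 M4.B2

open Matrix Polynomial

noncomputable section

variable [Dim]

theorem Act.outs {P : Nat.Primes} {ι' : Type} [Fintype ι'] {S : Setup P ι'} {A : Type}
    [CommRing A] (T : Act S A) {s : PadicAlgCl P ≃ₐ[ℚ_[P]] PadicAlgCl P} (hs : IsFrob s) :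
    Outs (T.toTD hs) where
  sep _ _ _ h := (T.toTD hs).out_sep h
  main δ N c d h1 h2 h3 h4 h5 :=
    (T.toTD hs).out_main (fun _ => eq_zero_of_line) δ N c d h1 h2 h3 h4 h5
  weil := (T.toTD hs).out_weil fun _ => eq_zero_of_line

end

end MG.B2
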