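import Pool.Agent.Lib.MP_33b3f9_ag.M4.B2.Gram

/-!
Linear independence of `l`-adic matrices from a quadratic height.
-/

set_option autoImplicit false

noncomputable section

namespace MG.B2

open Matrix

/-- The polar form of a function with the parallelogram law. -/
theorem weilD_polar {M : Type} [AddCommGroup M] {H : M → ℕ}
    (hp : ∀ a b, H (a + b) + H (a - b) = 2 * H a + 2 * H b) :
    ∃ B : M →ₗ[ℤ] M →ₗ[ℤ] ℤ, (∀ a b, B a b = (H (a + b) : ℤ) - H a - H b) ∧
      ∀ a, B a a = 2 * H a := by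
  have key : ∀ x y z : M, (H (x + y + z) : ℤ) - H (x + y) - H z =
      ((H (x + z) : ℤ) - H x - H z) + ((H (y + z) : ℤ) - H y - H z) := by
    intro x y z
    have h1 := hp (x + y) z
    have h2 := hp x (y - z)
    have h3 := hp (x + z) y
    have h4 := hp y z
    rw [show x + (y - z) = x + y - z by abel, show x - (y - z) = x + z - y by abel] at h2
    rw [show x + z + y = x + y + z by abel] at h3
    omega
  let f : M → M →+ ℤ := fun b =>
    AddMonoidHom.mk' (fun a => (H (a + b) : ℤ) - H a - H b) fun x y => key x y b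
  have hf : ∀ a b, f b a = f a b := fun a b => by
    change (H (a + b) : ℤ) - H a - H b = (H (b + a) : ℤ) - H b - H a
    rw [add_comm]; ring
  refine ⟨LinearMap.mk₂ ℤ (fun a b => f b a) (fun x y b => map_add _ _ _)
    (fun c x b => map_zsmul _ _ _) (fun a x y => by rw [hf, map_add, hf x, hf y])
    (fun c a x => by rw [hf, map_zsmul, hf x]), fun a b => rfl, fun a => ?_⟩
  change (H (a + a) : ℤ) - H a - H a = 2 * H a
  have h0 := hp 0 0
  have h1 := hp a a
  rw [add_zero, sub_zero] at h0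
  rw [sub_self] at h1
  omega

/-- A definite height that detects divisibility by powers of `l` forces independence. -/
theorem weilD_li {I n : Type} [Fintype I] [DecidableEq I] {l : ℕ} [Fact l.Prime]
    {H : (I → ℤ) → ℕ} (hp : ∀ a b, H (a + b) + H (a - b) = 2 * H a + 2 * H b)
    (h0 : ∀ v, H v = 0 → v = 0) (mm : I → Matrix n n ℤ_[l])
    (hd : ∀ (k : ℕ) (v : I → ℤ), (∀ i j, (l : ℤ_[l]) ^ k ∣ (∑ s, v s • mm s) i j) →
      l ^ (2 * k) ∣ H v) : LinearIndependent ℤ_[l] mm := by
  obtain ⟨B, hB, hs⟩ := weilD_polar hp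
  have hv : ∀ v : I → ℤ, v = ∑ s, v s • Pi.single s 1 := fun v => by
    ext t
    simp [Finset.sum_apply, Pi.single_apply]
  let G : Matrix I I ℤ := Matrix.of fun s t => B (Pi.single s 1) (Pi.single t 1)
  have hG : ∀ v t, B v (Pi.single t 1) = ∑ s, v s * G s t := fun v t => by
    conv_lhs => rw [hv v]
    simp only [map_sum, map_smul, LinearMap.sum_apply, LinearMap.smul_apply, smul_eq_mul, G,
      Matrix.of_apply]
  have hM : G.det ≠ 0 := by
    intro e
    obtain ⟨v, hv0, h1⟩ := Matrix.exists_vecMul_eq_zero_iff.2 e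
    have h2 : B v v = 0 := by
      conv_lhs => arg 2; rw [hv v]
      rw [map_sum]
      refine Finset.sum_eq_zero fun t _ => ?_
      rw [map_smul, hG, show ∑ s, v s * G s t = 0 from congrFun h1 t, smul_zero]
    rw [hs] at h2
    exact hv0 (h0 v (by omega))
  have hM' : ((Int.castRingHom ℤ_[l]).mapMatrix G).det ≠ 0 := by
    rw [← RingHom.map_det, eq_intCast]
    exact Int.cast_ne_zero.2 hM
  refine Fintype.linearIndependent_iff.2 fun c hc => congrFun
    (Matrix.eq_zero_of_vecMul_eq_zero hM' (funext fun t => M4.B2.eq_zero_of_pow_dvd fun k => ?_))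
  choose y hy using fun s => Ideal.mem_span_singleton.1 (PadicInt.appr_spec k (c s))
  let v : I → ℤ := fun s => (c s).appr k
  have hv' : ∀ s, (v s : ℤ_[l]) = c s - (l : ℤ_[l]) ^ k * y s := fun s => by
    rw [← hy, sub_sub_cancel]
    exact Int.cast_natCast _
  have ha : ∀ i j, (l : ℤ_[l]) ^ k ∣ (∑ s, v s • mm s) i j := fun i j => by
    have e : ∑ s, v s • mm s = (l : ℤ_[l]) ^ k • -∑ s, y s • mm s := by
      simp only [← Int.cast_smul_eq_zsmul ℤ_[l], hv', sub_smul, Finset.sum_sub_distrib, hc,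
        mul_smul, ← Finset.smul_sum, zero_sub, smul_neg]
    rw [e]
    exact ⟨_, rfl⟩
  have hb : ∀ i j, (l : ℤ_[l]) ^ k ∣
      (∑ s, ((l : ℤ) ^ k • Pi.single t (1 : ℤ) : I → ℤ) s • mm s) i j := fun i j => by
    simp only [Pi.smul_apply, smul_eq_mul, mul_smul, ← Finset.smul_sum]
    rw [Matrix.smul_apply, zsmul_eq_mul]
    push_cast
    exact ⟨_, rfl⟩
  have h1 := Int.natCast_dvd_natCast.2 (hd k _ ha)
  have h2 := Int.natCast_dvd_natCast.2 (hd k _ hb)
  have h3 := Int.natCast_dvd_natCast.2 (hd k (v + (l : ℤ) ^ k • Pi.single t 1) fun i j => by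
    simp only [Pi.add_apply, add_smul, Finset.sum_add_distrib]
    exact dvd_add (ha i j) (hb i j))
  have h4 := dvd_sub (dvd_sub h3 h1) h2
  rw [← hB, map_smul, smul_eq_mul, two_mul] at h4
  push_cast at h4
  rw [pow_add, mul_dvd_mul_iff_left
    (pow_ne_zero _ (Int.natCast_ne_zero.2 (Fact.out : l.Prime).ne_zero)), hG] at h4
  obtain ⟨q, hq⟩ := h4
  have h5 := congrArg (Int.cast : ℤ → ℤ_[l]) hq
  push_cast at h5
  simp only [hv', sub_mul, Finset.sum_sub_distrib, mul_assoc, ← Finset.mul_sum] at h5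
  refine ⟨q + ∑ s, y s * (G s t : ℤ_[l]), ?_⟩
  rw [mul_add, ← h5, sub_add_cancel]
  rfl

theorem weilD_liQ {I n : Type} {l : ℕ} [Fact l.Prime] {mm : I → Matrix n n ℤ_[l]}
    (h : LinearIndependent ℤ_[l] mm) :
    LinearIndependent ℚ_[l] fun s => (mm s).map ((↑) : ℤ_[l] → ℚ_[l]) :=
  (LinearIndependent.iff_fractionRing ℤ_[l] ℚ_[l]).1
    (h.map' (Algebra.linearMap ℤ_[l] ℚ_[l]).mapMatrix
      (LinearMap.ker_eq_bot.2 (Matrix.map_injective Subtype.val_injective)))

/-- Cayley-Hamilton bounds the number of independent powers. -/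
theorem weilD_card {R n : Type} [CommRing R] [Nontrivial R] [Fintype n] [DecidableEq n]
    (π : Matrix n n R) {s : ℕ} (h : LinearIndependent R fun i : Fin s => π ^ (i : ℕ)) :
    s ≤ Fintype.card n := by
  by_contra hs
  have h1 : π.charpoly.natDegree < s := by rw [Matrix.charpoly_natDegree_eq_dim]; omega
  have h2 := Polynomial.aeval_eq_sum_range' h1 π
  rw [Matrix.aeval_self_charpoly, Finset.sum_range] at h2
  exact one_ne_zero (π.charpoly_monic.coeff_natDegree.symm.trans
    (Fintype.linearIndependent_iff.1 h _ h2.symm ⟨_, h1⟩))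

end MG.B2
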