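import Pool.Agent.Lib.MP_33b3f9_ag.MG.B2.EvZ
import Pool.Agent.Lib.MP_33b3f9_ag.MG.B2.WeilD
import Pool.Agent.Lib.MP_33b3f9_ag.M4.B2.WeilA
import Pool.Agent.Lib.MP_33b3f9_ag.M4.B2.WeilB

/-!
The minimal polynomial of Frobenius over the CM field.
-/

set_option autoImplicit false
set_option linter.unusedSectionVars false

noncomputable section

namespace MG.B2

open Matrix Polynomial

variable [Dim] {e : ℕ} {a b : MZ} {m n : ℕ}

theorem weilE_li {A J : Type} [CommRing A] [Fintype J] [DecidableEq J] {l : ℕ} [Fact l.Prime]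
    {ψ : A →+* MZ} {π : Matrix ν ν ℤ_[l]} {h : A[X] → ℕ}
    (par : ∀ f g, h (f + g) + h (f - g) = 2 * h f + 2 * h g)
    (hd : ∀ (k : ℕ) (f : A[X]), (∀ i j, (l : ℤ_[l]) ^ k ∣ evZ ψ π f i j) → l ^ (2 * k) ∣ h f)
    (g : J → A[X]) (hg : ∀ v : J → ℤ, h (∑ s, v s • g s) = 0 → v = 0) :
    LinearIndependent ℤ_[l] fun s => evZ ψ π (g s) := by
  let ev : A[X] →+ Matrix ν ν ℤ_[l] := AddMonoidHom.mk' (evZ ψ π) fun _ _ => eval₂_add _ _
  refine weilD_li (H := fun v => h (∑ s, v s • g s)) (fun v w => ?_) hg _ fun k v hv => hd k _ ?_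
  · simp only [Pi.add_apply, Pi.sub_apply, add_smul, sub_smul, Finset.sum_add_distrib,
      Finset.sum_sub_distrib]
    exact par _ _
  · have e : evZ ψ π (∑ s, v s • g s) = ∑ s, v s • evZ ψ π (g s) :=
      (map_sum ev _ _).trans (Finset.sum_congr rfl fun s _ => map_zsmul ev _ _)
    rwa [e]

theorem weilE_deg {A : Type} [CommRing A] {l : ℕ} [Fact l.Prime]
    {ψ : A →+* MZ} {π : Matrix ν ν ℤ_[l]} {h : A[X] → ℕ}
    (par : ∀ f g, h (f + g) + h (f - g) = 2 * h f + 2 * h g)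
    (hd : ∀ (k : ℕ) (f : A[X]), (∀ i j, (l : ℤ_[l]) ^ k ∣ evZ ψ π f i j) → l ^ (2 * k) ∣ h f)
    {s : ℕ} (h0 : ∀ q : ℤ[X], q.degree < s → h (q.map (Int.castRingHom A)) = 0 → q = 0) :
    s ≤ Fintype.card ν := by
  have h1 := weilE_li par hd (fun i : Fin s => X ^ (i : ℕ)) fun v hv => by
    have h2 := h0 _ (degree_sum_fin_lt v) (by
      rw [← hv, Polynomial.map_sum]
      refine congrArg h (Finset.sum_congr rfl fun i _ => ?_)
      rw [Polynomial.map_mul, map_C, Polynomial.map_pow, map_X, eq_intCast, map_intCast,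
        zsmul_eq_mul])
    funext i
    have h3 := congrArg (fun q => coeff q i) h2
    simpa [finsetSum_coeff, coeff_C_mul, coeff_X_pow, Fin.val_inj] using h3
  simp only [evZ, eval₂_X_pow] at h1
  exact weilD_card π h1

theorem weilE_comm (D : PD e a b m n) {K : IntermediateField ℚ ℂ} {r : Rep K} (hc : COMM a b r)
    (l : ℕ) [Fact l.Prime] (σ : ℂ ≃ₐ[K] ℂ) (x : D.E) : Commute (D.φl l x) (rq r l σ) := by
  have hx : x ∈ Algebra.adjoin ℚ {D.z} := D.gen ▸ Algebra.mem_top
  induction hx using Algebra.adjoin_induction with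
  | mem x hx =>
    have h1 := (hc l σ).1.map (PadicInt.Coe.ringHom (p := l)).mapMatrix
    have e : D.φl l D.z = (PadicInt.Coe.ringHom (p := l)).mapMatrix (zM ℤ_[l] a) := by
      ext i j
      simp [PD.φl, D.φz]
    rw [Set.mem_singleton_iff.1 hx, e]
    exact h1
  | algebraMap q =>
    rw [RingHom.map_rat_algebraMap]
    exact Algebra.commute_algebraMap_left _ _
  | add x y _ _ h1 h2 => rw [map_add]; exact h1.add_left h2
  | mul x y _ _ h1 h2 => rw [map_mul]; exact h1.mul_left h2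

theorem weilE_pow (D : PD e a b m n) :
    LinearIndependent ℚ fun i : Fin (2 * e) => D.z ^ (i : ℕ) := by
  have h := linearIndependent_pow (K := ℚ) D.z
  rwa [(Field.primitive_element_iff_minpoly_natDegree_eq ℚ D.z).1
    (IntermediateField.adjoin_eq_top_of_algebra _ _ D.gen), D.rank] at h

theorem weil_of (D : PD e a b m n) {ψ : D.A →+* MZ} (hψ : ∀ x, zM ℚ (ψ x) = D.φ x)
    {K : IntermediateField ℚ ℂ} {r : Rep K} (hc : COMM a b r) {p : ℕ} (hp : p ≠ 2)
    (σ : ℂ ≃ₐ[K] ℂ) {h : D.A[X] → ℕ} (par : ∀ f g, h (f + g) + h (f - g) = 2 * h f + 2 * h g)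
    (hX : ∀ f, h (X * f) = p * h f)
    (h0 : ∀ f, h f = 0 ↔ ∀ (l : ℕ) [Fact l.Prime], l ≠ p →
      evZ ψ (r l σ : Matrix ν ν ℤ_[l]) f = 0)
    (hd : ∀ (l : ℕ) [Fact l.Prime], l ≠ p → ∀ (k : ℕ) (f : D.A[X]),
      (∀ i j, (l : ℤ_[l]) ^ k ∣ evZ ψ (r l σ : Matrix ν ν ℤ_[l]) f i j) → l ^ (2 * k) ∣ h f) :
    (∃ P, Weil D r p σ P) ∧ ∃ Q : ℤ[X], Q.Monic ∧ Q.natDegree ≤ Fintype.card ν ∧
      h (Q.map (Int.castRingHom D.A)) = 0 := by
  classical
  let I : Ideal D.E[X] :=
    { carrier := {f | ∀ (l : ℕ) [Fact l.Prime], l ≠ p → D.ev r l σ f = 0}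
      add_mem' := fun {f g} hf hg l _ hl => by
        rw [PD.ev, eval₂_add]
        exact (congrArg₂ (· + ·) (hf l hl) (hg l hl)).trans (add_zero 0)
      zero_mem' := fun l _ _ => eval₂_zero _ _
      smul_mem' := fun c f hf l _ hl => by
        rw [smul_eq_mul, PD.ev, eval₂_mul_noncomm _ _ fun k => weilE_comm D hc l σ _]
        exact (congrArg _ (hf l hl)).trans (mul_zero _) }
  have hI : ∀ f : D.A[X], h f = 0 ↔ f.map D.A.val.toRingHom ∈ I := fun f => by
    rw [h0]
    refine forall₃_congr fun l _ _ => ?_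
    rw [ev_map D hψ]
    exact ⟨fun e => by rw [e]; exact Matrix.map_zero _ rfl, fun e => Matrix.ext fun i j =>
      PadicInt.coe_eq_zero.1 (congrFun (congrFun e i) j)⟩
  have hm : ∀ q : ℤ[X], (q.map (Int.castRingHom D.A)).map D.A.val.toRingHom =
      q.map (Int.castRingHom D.E) := fun q => by
    rw [Polynomial.map_map]
    exact congrArg (fun f => q.map f) (RingHom.ext_int _ _)
  have par' : M4.B2.Par fun q => h (q.map (Int.castRingHom D.A)) := fun f g => by
    simp only [Polynomial.map_add, Polynomial.map_sub]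
    exact par _ _
  have hI' : ∀ q : ℤ[X], h (q.map (Int.castRingHom D.A)) = 0 ↔
      q ∈ I.comap (mapRingHom (Int.castRingHom D.E)) := fun q => by
    rw [hI, hm]
    rfl
  obtain ⟨Q, hQ, hQh⟩ := M4.B2.exists_monic_gen par' _ hI' fun hb =>
    Nat.not_succ_le_self _ (weilE_deg par (hd 2 hp.symm) fun q _ hq => by
      have := (hI' q).1 hq
      rwa [hb, Ideal.mem_bot] at this)
  have hQI : Q.map (Int.castRingHom D.E) ∈ I := (hI' Q).1 ((hQh Q).2 dvd_rfl)
  refine ⟨?_, Q, hQ, weilE_deg par (hd 2 hp.symm) fun q h1 h2 =>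
    eq_zero_of_dvd_of_degree_lt ((hQh q).1 h2) (by rwa [degree_eq_natDegree hQ.ne_zero]),
    (hQh Q).2 dvd_rfl⟩
  have hP : ∀ f, f ∈ I ↔ normalize (Submodule.IsPrincipal.generator I) ∣ f := fun f => by
    rw [normalize_dvd_iff, Submodule.IsPrincipal.mem_iff_generator_dvd]
  have hP1 : (normalize (Submodule.IsPrincipal.generator I)).Monic :=
    monic_normalize fun e => (hQ.map (Int.castRingHom D.E)).ne_zero (by
      have := (hP _).1 hQI
      rwa [e, normalize_zero, zero_dvd_iff] at this)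
  generalize normalize (Submodule.IsPrincipal.generator I) = P at hP hP1
  have hPQ := (hP _).1 hQI
  refine ⟨P, hP1, fun i => ?_, fun j x hx => ?_, (hP P).2 dvd_rfl, fun l _ hl => ?_⟩
  · obtain ⟨y, hy⟩ := (lifts_iff_coeff_lifts _).1
      (integralClosure.mem_lifts_of_monic_of_dvd_map D.E hQ hP1 hPQ) i
    exact hy ▸ y.2
  · refine M4.B2.norm_root_sq par' (fun q => by rw [Polynomial.map_mul, map_X, hX]) hQ hQh ?_
    obtain ⟨T, hT⟩ := hPQ
    have h1 := congrArg (eval₂ j x) hT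
    rw [eval₂_mul, hx, zero_mul, eval₂_map] at h1
    rw [aeval_def, ← h1]
    exact congrArg (fun f => Q.eval₂ f x) (RingHom.ext_int _ _)
  · let za : D.A := ⟨D.z, Algebra.subset_adjoin (Set.mem_insert _ _)⟩
    have hz : ψ za = a := Matrix.map_injective Int.cast_injective ((hψ za).trans D.φz)
    have h1 := weilE_li par (hd l hl)
      (fun s : Fin (2 * e) × Fin P.natDegree => monomial s.2 (za ^ (s.1 : ℕ))) fun v hv => by
      have h2 := (hP _).1 ((hI _).1 hv)
      have h3 : (∑ s : Fin (2 * e) × Fin P.natDegree,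
          v s • monomial (s.2 : ℕ) (za ^ (s.1 : ℕ))).map D.A.val.toRingHom =
          ∑ j : Fin P.natDegree, C (∑ i : Fin (2 * e), (v (i, j) : ℚ) • D.z ^ (i : ℕ)) *
            X ^ (j : ℕ) := by
        rw [Polynomial.map_sum, Fintype.sum_prod_type_right]
        refine Finset.sum_congr rfl fun j _ => ?_
        rw [C_mul_X_pow_eq_monomial, map_sum]
        refine Finset.sum_congr rfl fun i _ => ?_
        rw [← map_zsmul, Polynomial.map_monomial, Int.cast_smul_eq_zsmul]
        rfl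
      rw [h3] at h2
      have h4 := eq_zero_of_dvd_of_degree_lt h2 (by
        rw [degree_eq_natDegree hP1.ne_zero]
        exact degree_sum_fin_lt _)
      funext s
      have h5 := congrArg (fun q => coeff q s.2) h4
      simp only [finsetSum_coeff, coeff_C_mul, coeff_X_pow, Fin.val_inj, mul_ite, mul_one, mul_zero,
        Finset.sum_ite_eq, Finset.mem_univ, if_true, coeff_zero] at h5
      exact Int.cast_injective (α := ℚ) ((Fintype.linearIndependent_iff.1 (weilE_pow D) _ h5 s.1).trans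
        Int.cast_zero.symm)
    have h2 := weilD_liQ h1
    have e : ∀ s : Fin (2 * e) × Fin P.natDegree,
        (evZ ψ (r l σ : Matrix ν ν ℤ_[l]) (monomial s.2 (za ^ (s.1 : ℕ)))).map
          ((↑) : ℤ_[l] → ℚ_[l]) = zM ℚ_[l] a ^ (s.1 : ℕ) * rq r l σ ^ (s.2 : ℕ) := fun s => by
      rw [← ev_map D hψ, Polynomial.map_monomial, PD.ev, eval₂_monomial, map_pow, map_pow]
      congr 2
      ext i j
      simp [PD.φl, za, D.φz]
    simpa only [e] using h2

end MG.B2
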