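import Pool.Agent.Lib.MP_33b3f9_ag.MG.B2.Line
import Pool.Agent.Lib.MP_33b3f9_ag.MG.B2.Few
import Pool.Agent.Lib.MP_33b3f9_ag.MG.B2.Outs
import Pool.Agent.Lib.MP_33b3f9_ag.MG.B2.ActA
import Pool.Agent.Lib.MP_33b3f9_ag.MG.B2.WeilE
import Pool.Agent.Lib.MP_33b3f9_ag.MG.Hb.Unr
import Pool.Agent.Lib.MP_33b3f9_ag.MG.IDefs

/-!
Frobenius elements at almost all places of degree one.
-/

set_option autoImplicit false
set_option linter.unusedSectionVars false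

namespace MG.B2

open M4 M4.B2

open Matrix Polynomial Pool.Agent.M4.Det

noncomputable section

variable [Dim]

variable {τ : Mat} {K : IntermediateField ℚ ℂ} {r : Rep K}

theorem dec_dec {p : ℕ} [Fact p.Prime] {e : ℂ ≃+* PadicAlgCl p} (he : IsPlace K e)
    (t : PadicAlgCl p ≃ₐ[ℚ_[p]] PadicAlgCl p) : NT.Dec e (dec he t) := by
  rintro x ⟨q, hq⟩
  refine e.injective ?_
  rw [e_dec, ← hq, t.commutes]

theorem exists_dec {p : ℕ} [Fact p.Prime] {e : ℂ ≃+* PadicAlgCl p} (he : IsPlace K e)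
    {σ : ℂ ≃ₐ[K] ℂ} (h : NT.Dec e σ) : ∃ t, σ = dec he t := by
  refine ⟨AlgEquiv.ofRingEquiv (f := e.symm.trans (σ.toRingEquiv.trans e)) fun q => ?_, ?_⟩
  · change e (σ (e.symm _)) = _
    rw [h _ ⟨q, (e.apply_symm_apply _).symm⟩, e.apply_symm_apply]
  · ext z
    refine e.injective ?_
    rw [e_dec]
    change _ = e (σ (e.symm (e z)))
    rw [e.symm_apply_apply]

theorem rq_eq (l : ℕ) [Fact l.Prime] (σ : ℂ ≃ₐ[K] ℂ) :
    rq r l σ = mQ (r l σ : Matrix ν ν ℤ_[l]) := rfl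

theorem sim_int {g : Matrix ν ν ℤ} {M : ℕ} (hs : Sim (zr g) M) :
    gᵀ * Matrix.J ι ℤ * g = (M : ℤ) • Matrix.J ι ℤ :=
  (Kz.simR_iff _ _).1 (Kz.simR_of_sim (h := g) (m := (M : ℤ)) (by rwa [Int.cast_natCast]))

variable {e : ℕ} {a b : MZ} {m n : ℕ}

theorem ev_one_add (D : PD e a b m n) {ψ : D.A →+* MZ} (hψ : ∀ x, zM ℚ (ψ x) = D.φ x) (l : ℕ)
    [Fact l.Prime] (σ : ℂ ≃ₐ[K] ℂ) (δ : D.A[X]) (p N : ℕ) {c : ℕ} (hc : c ≠ 0) :
    mQ (evZ ψ (r l σ : Matrix ν ν ℤ_[l]) (C (c : D.A) + C ((p : D.A) ^ N) * δ)) =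
      (c : ℚ_[l]) • D.ev r l σ (1 + C ((p : D.E) ^ N / c) * δ.map D.A.val.toRingHom) := by
  have h : (C (c : D.A) + C ((p : D.A) ^ N) * δ).map D.A.val.toRingHom =
      (c : D.E) • (1 + C ((p : D.E) ^ N / c) * δ.map D.A.val.toRingHom) := by
    rw [Polynomial.map_add, Polynomial.map_mul, map_C, map_C, map_natCast D.A.val.toRingHom,
      map_pow D.A.val.toRingHom, map_natCast D.A.val.toRingHom, smul_eq_C_mul, mul_add, mul_one, ← mul_assoc, ← map_mul,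
      mul_div_cancel₀ _ (Nat.cast_ne_zero.2 hc)]
  refine (ev_map D hψ r l σ _).symm.trans ?_
  rw [h, PD.ev, PD.ev, eval₂_smul, map_natCast, ← nsmul_eq_mul, Nat.cast_smul_eq_nsmul]

theorem red (D : PD e a b m n) : ∃ N₀, ∀ (τ : Mat) (K : IntermediateField ℚ ℂ) (r : Rep K),
    AV τ K r → τ ∈ FX a b → COMM a b r → REDst τ D r N₀ := by
  refine ⟨Fintype.card ν, fun τ K r h hτ hc => ?_⟩
  obtain ⟨ψ, bar, za, hψ, hza, hadj, hgen, hbb, hmul, hcomm⟩ := exists_act D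
  obtain ⟨p₀, i0, -, H⟩ := exists_setup h
  refine ⟨max (m + 1) p₀, fun p hp hp0 v he => ?_⟩
  obtain ⟨P, rfl⟩ : ∃ P : Nat.Primes, P.1 = p := ⟨⟨p, hp.out⟩, rfl⟩
  obtain ⟨S, rfl, hΓ, -, hR⟩ := H P (by omega) v he
  obtain ⟨s, hs⟩ := exists_frob (p := P)
  have hsa : Sim (zr a) m := ((Kz.simR_iff _ _).2 D.pel.aJ).sim
  obtain ⟨T, rfl⟩ : ∃ T : Act S D.A, T.ψ = ψ := ⟨{
    ψ := ψ
    bar := bar
    za := za
    ma := m
    gen := hgen
    bar_bar := hbb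
    bar_mul := hmul
    m_cop := Nat.not_dvd_of_pos_of_lt D.pel.m0 (by omega)
    adj := hadj
    comm := fun x t l => by
      rw [hR]
      exact hcomm _ _ (hc l _).1 x
    ends := fun x hx k => by
      rw [hΓ]
      rcases hx with rfl | rfl
      · rw [hza]
        exact GA_end h.inH hsa D.pel.m0 hτ.2.1 k
      · rw [hadj, hza]
        exact GA_end h.inH (sim_adj hsa D.pel.m0) D.pel.m0
          (act_adj h.inH hsa D.pel.m0 hτ.2.1) k }, rfl⟩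
  have ho := T.outs hs
  have hne : ∀ (l : ℕ) (hl : l.Prime), l ≠ P.1 → (⟨l, hl⟩ : Nat.Primes) ≠ P :=
    fun l hl h1 h2 => h1 (congrArg Subtype.val h2)
  obtain ⟨Ht, par, hX, h0, hN⟩ := ho.weil
  obtain ⟨hW, Q, hQ, hQd, hQ0⟩ := weil_of D hψ hc S.odd (dec he s) par hX (fun f => by
    rw [h0, T.polV_eq_zero hs]
    simp only [hR]
    exact ⟨fun H l hl h1 => H ⟨l, hl.out⟩ (hne l hl.out h1),
      fun H l h1 => H l fun h2 => h1 (Subtype.ext h2)⟩)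
    fun l hl h1 k f hf => by
      have hd : ¬ P.1 ∣ l ^ k := fun hd =>
        h1 ((Nat.prime_dvd_prime_iff_eq P.2 hl.out).1 (P.2.dvd_of_dvd_pow hd)).symm
      have h6 := hN (l ^ k) f hd fun x hx =>
        T.polV_lam hs (l := ⟨l, hl.out⟩) k f (by rw [hR]; exact hf) x hx
      rwa [← pow_mul, mul_comm] at h6
  refine ⟨dec he s, dec_dec he s, fun σ' hσ' n hn => ?_, fun σ' hσ' hf l hl hlp => ?_,
    fun l hl hlp => ?_, hW, fun δ c M M' g g' W hδ hc hg hg' hM hM' hMM hW N u u' hN hu => ?_⟩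
  · obtain ⟨t, rfl⟩ := exists_dec he hσ'
    obtain ⟨j, hj⟩ := T.unram hs ho t hn
    refine ⟨j, fun R hc l hl a b => ?_⟩
    by_cases hlp : l = P.1
    · subst hlp
      refine IsUnit.dvd ?_
      rw [PadicInt.isUnit_iff, PadicInt.norm_natCast_eq_one_iff]
      exact (Nat.Prime.coprime_iff_not_dvd P.2).2 hn
    · have h1 := hj ⟨l, hl.out⟩ (hne l hl.out hlp) a b
      have h2 := hc l a b
      rw [hR, hR] at h1
      rw [map_pow, Units.val_pow_eq_pow_val] at h2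
      have h3 := dvd_add h1 h2
      rwa [Matrix.sub_apply, sub_add_sub_cancel] at h3
  · obtain ⟨t, rfl⟩ := exists_dec he hσ'
    have h1 := T.inert hs ho (t := t) (Hb.ine_of_fix fun k ω hk hω => by
      rw [← S.e.apply_symm_apply ω, ← e_dec he, hf k _ hk (by rw [← map_pow, hω, map_one])])
      (hne l hl.out hlp)
    rwa [hR] at h1
  · have h1 := S.mult hs (hne l hl.out hlp)
    rw [hR] at h1
    exact sim_matrix.1 h1
  · replace hQ0 := (h0 _).1 hQ0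
    have hc0 : c ≠ 0 := fun h1 => hc (h1 ▸ dvd_zero _)
    have h0 : 0 < M := Nat.pos_of_ne_zero fun h1 => hM (h1 ▸ dvd_zero _)
    have h0' : 0 < M' := Nat.pos_of_ne_zero fun h1 => hM' (h1 ▸ dvd_zero _)
    obtain ⟨θ, Θ, hθ⟩ := exists_line h.inH hg.2.2 h0
    obtain ⟨θ', Θ', hθ'⟩ := exists_line h.inH hg'.2.2 h0'
    rw [← hΓ] at hθ hθ'
    obtain ⟨δ, rfl⟩ := (mem_lifts (f := D.A.val.toRingHom) δ).1
      ((lifts_iff_coeff_lifts δ).2 fun i => ⟨⟨_, hδ i⟩, rfl⟩)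
    have hW' := fun (l : Nat.Primes) (hl : l ≠ P) => hW l fun h1 => hl (Subtype.ext h1)
    refine T.few hs ho (hQ.map (Int.castRingHom D.A)) (natDegree_map_le.trans hQd)
      Fintype.card_pos hQ0 hθ hθ' (sim_int hg.2.2) (sim_int hg'.2.2)
      hM hM' hMM δ hc (fun l => W l) (fun l hl => ?_)
      (fun l hl a b => Dvd.dvd.trans ⟨4, by norm_num⟩ ((hW' l hl).2.2 a b))
      (fun l hl x y => ?_) hN fun l hl => hu l fun h1 => hl (Subtype.ext h1)
    · rw [hR, ev_one_add D hψ l _ δ P _ hc0, Matrix.mul_smul, (hW' l hl).1]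
      rfl
    · have h1 := congrArg mQ (hW' l hl).2.1
      rw [mQ_mul, mQ_mul, ← cmp_J, mQ_zM, cmp_J, ← one_smul ℚ_[l] (Matrix.J ι ℚ_[l])] at h1
      rw [← one_mul (EB x y)]
      refine sim_matrix.2 ?_ x y
      rw [← h1, one_smul]
      rfl

end

end MG.B2
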