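import Pool.Agent.Lib.MP_33b3f9_ag.MG.B2.RedC
import Pool.Agent.Lib.MP_33b3f9_ag.MG.B2.ZM

/-!
The theta data in characteristic `p`.
-/

set_option autoImplicit false
set_option linter.unusedSectionVars false

namespace MG.B2

open M4 M4.B2

open Matrix Polynomial

noncomputable section

variable [Dim]

variable {P : Nat.Primes} {ι' : Type} [Fintype ι'] (S : Setup P ι')
  (t : PadicAlgCl P ≃ₐ[ℚ_[P]] PadicAlgCl P)

theorem Setup.equiv_X (i : ι') (x : VA) :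
    t (S.e (S.D.X i x)) = S.e (S.D.X i (rho (S.R t) x)) := by
  rw [← e_cj, (S.D.mu (cj S.e t) (rho (S.R t)) (fun _ hx => (rho_mem_TA _).2 hx) (S.fix t)
    (S.compat t)).1]

theorem Setup.equiv_psi (x y : VA) :
    cj S.e t (psi (EB x y)) = psi (EB (rho (S.R t) x) (rho (S.R t) y)) :=
  (S.D.mu (cj S.e t) (rho (S.R t)) (fun _ hx => (rho_mem_TA _).2 hx) (S.fix t) (S.compat t)).2 x y

theorem Setup.redF_rho (i : ι') (z : Vt P × WW P) :
    redF S.e (S.D.X i) (rhoV P (S.R t) z.1, rhoW (S.R t P) z.2) =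
      res (t (S.e (S.D.X i (lift z)))) := by
  have h : rhoW (S.R t P) z.2 = ((mQ (S.R t P) *ᵥ z.2.out : ν → ℚ_[P]) : WW P) := by
    conv_lhs => rw [← QuotientAddGroup.out_eq' z.2]
    rfl
  rw [h, redF_mk S.D (S.D.X_mem i) (S.intg_X i), S.equiv_X, lift, map_add, rho_iV, coe_rhoV]

variable {t}

theorem Setup.fr (ht : IsFrob t) (i : ι') (z : Vt P × WW P) :
    redF S.e (S.D.X i) (rhoV P (S.R t) z.1, rhoW (S.R t P) z.2) =
      redF S.e (S.D.X i) z ^ P.1 := by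
  rw [S.redF_rho, ht.res (S.intg_X i _)]; rfl

theorem Setup.eps_s (ht : IsFrob t) (x y : Vt P) :
    epsR S.e (rhoV P (S.R t) x) (rhoV P (S.R t) y) = epsR S.e x y ^ P.1 := by
  have h := S.equiv_psi t (qA (1 / 2) • (x : VA)) y
  rw [map_smul, EB_smul_left, EB_smul_left] at h
  rw [epsR, epsR, coe_rhoV, coe_rhoV, ← h, e_cj, ht.res (norm_e_psi _ _).le]

theorem eq_zero_of_line {P : Nat.Primes} {y : Vt P} (h : ∀ q : ℚ, q • y ∈ Lam P) : y = 0 := by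
  refine Subtype.ext (funext fun i => eq_zero_of_psi fun q => psi_eq_one.2 ?_)
  have := mem_TA.1 (mem_Lam.1 (h q)) i
  rwa [Submodule.coe_smul, Pi.smul_apply, Algebra.smul_def] at this

theorem GG_end (D : TD0 ι') (e : ℂ ≃+* PadicAlgCl P) {g : MZ} {n n' : ℕ}
    (h : ∀ f ∈ D.Γ n, (fun u => f (zM Af g *ᵥ u)) ∈ D.Γ n') (f : Vt P × WW P → kk P)
    (hf : f ∈ GG D e n) : (fun u : Vt P × WW P => f (zV P g u.1, zW P g u.2)) ∈ GG D e n' := by
  obtain ⟨f, hf, hi, rfl⟩ := hf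
  refine ⟨_, h f hf, fun x => hi _, funext fun z => ?_⟩
  have h1 : zW P g z.2 = ((zM ℚ_[P] g *ᵥ z.2.out : ν → ℚ_[P]) : WW P) := by
    rw [← zW_mk, QuotientAddGroup.out_eq']
  rw [h1, redF_mk D hf hi, redF, lift, mulVec_add, zM_iV, coe_zV]

/-- A ring of endomorphisms, generated by a similitude and its adjoint. -/
structure Act (A : Type) [CommRing A] where
  ψ : A →+* MZ
  bar : A →+* A
  za : A
  ma : ℕ
  gen : Algebra.adjoin ℤ {za, bar za} = ⊤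
  bar_bar : ∀ a, bar (bar a) = a
  bar_mul : bar za * za = ma
  m_cop : ¬ P.1 ∣ ma
  adj : ∀ a, ψ (bar a) = adj (ψ a)
  comm : ∀ a t (l : Nat.Primes), Commute (zM ℤ_[l] (ψ a)) (S.R t l : Matrix ν ν ℤ_[l])
  ends : ∀ a, a = za ∨ a = bar za → ∀ n, ∀ f ∈ S.D.Γ n,
    (fun u => f (zM Af (ψ a) *ᵥ u)) ∈ S.D.Γ (n * ma)

variable {S} {A : Type} [CommRing A]

theorem Act.commQ (T : Act S A) (a : A) (t : PadicAlgCl P ≃ₐ[ℚ_[P]] PadicAlgCl P)
    (l : Nat.Primes) : zM ℚ_[l] (T.ψ a) * mQ (S.R t l : Matrix ν ν ℤ_[l]) =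
      mQ (S.R t l : Matrix ν ν ℤ_[l]) * zM ℚ_[l] (T.ψ a) := by
  rw [← mQ_zM, ← mQ_mul, ← mQ_mul, (T.comm a t l).eq]

/-- The reduced theta data. -/
def Act.toTD (T : Act S A) (ht : IsFrob t) :
    CP.TD (kk P) P (Fintype.card ι) A (Vt P) (WW P) ι' where
  Lam := Lam P
  eps := epsR S.e
  G := GG S.D S.e
  X := fun i => redF S.e (S.D.X i)
  sV := rhoV P (S.R t)
  sW := rhoW (S.R t P)
  bar := T.bar
  za := T.za
  ma := T.ma
  aV := (zV P).comp T.ψ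
  aW := (zW P).comp T.ψ
  g_pos := Fintype.card_pos
  gen := T.gen
  bar_bar := T.bar_bar
  bar_mul := T.bar_mul
  m_cop := T.m_cop
  aV_s := fun a x => Subtype.ext (VA_ext fun l => by
    rw [RingHom.comp_apply, coe_zV, coe_rhoV, coe_rhoV, coe_zV, cmp_cV, cV_rho, cV_rho, cmp_cV,
      mulVec_mulVec, mulVec_mulVec, T.commQ])
  aW_s := fun a y => QuotientAddGroup.induction_on y fun s => by
    change zW P (T.ψ a) (matW (S.R t P : Matrix ν ν ℤ_[P]) (s : WW P)) =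
      matW (S.R t P : Matrix ν ν ℤ_[P]) (zW P (T.ψ a) (s : WW P))
    rw [matW_mk, zW_mk, zW_mk, matW_mk, mulVec_mulVec, mulVec_mulVec, T.commQ]
  aV_lam := fun _ _ hx => cmp_TA _ hx
  eps_a := fun a x y => by
    rw [epsR, epsR, RingHom.comp_apply, RingHom.comp_apply, coe_zV, coe_zV, T.adj, EB_adj]
  ends := fun a ha n f hf => GG_end S.D S.e (T.ends a ha n) f hf
  p_odd := S.odd
  lam_tors := lam_tors P
  lam_p := lam_p P
  lam_card := lam_card P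
  W_div := W_div P
  W_tors := W_tors P
  eps_add_left := epsR_add_left S.e
  eps_add_right := epsR_add_right S.e
  eps_self := epsR_self S.e
  perf := epsR_perf S.e
  span := S.span
  one_mem := GG_one S.D S.e
  mul_mem := GG_mul S.D S.e
  fin := S.fin
  dim_le := fun _ hn => (GG_fin_le S.D S.e hn).2
  dim_eq := S.dim_eq
  irr := S.irr
  tr := GG_tr S.D S.e
  per := GG_per S.D S.e
  mul := GG_mulc S.D S.e
  inj := S.inj
  bpf := S.bpf
  law := S.law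
  dup := S.dup
  sV_lam := fun _ => rho_mem_TA _
  eps_s := S.eps_s ht
  fr := S.fr ht

/-- The results of the theory in characteristic `p`. -/
structure Outs {k : Type} [Field k] {p gd : ℕ} {A : Type} [CommRing A] {V W ι' : Type}
    [AddCommGroup V] [Module ℚ V] [AddCommGroup W] [Fintype ι'] (T : CP.TD k p gd A V W ι') :
    Prop where
  sep : ∀ (z u : V × W) (c : k), (∀ i, T.X i (z + u) = c * T.X i z) → u.1 ∈ T.Lam ∧ u.2 ∈ T.C
  main : ∀ (δ : A[X]) (N c d : ℕ), δ.natDegree ≤ N → ¬ p ∣ c → d ≡ c ^ 2 [MOD p ^ N] →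
    (∀ x y, T.eps (T.polV (C (c : A) + C ((p : A) ^ N) * δ) x)
      (T.polV (C (c : A) + C ((p : A) ^ N) * δ) y) = T.eps x y ^ d) → 1 ≤ N →
    ∃ t : ℕ, ¬ p ∣ t ∧ ∀ n, ¬ p ∣ n → ∀ f ∈ T.G n, ∃ f' ∈ T.G (n * d * t ^ 2), ∀ x : V,
      f' (x, 0) = f (T.polV (C (c : A) + C ((p : A) ^ N) * δ) (t • x), 0)
  weil : ∃ h : A[X] → ℕ, (∀ a b, h (a + b) + h (a - b) = 2 * h a + 2 * h b) ∧
    (∀ a, h (X * a) = p * h a) ∧ (∀ a, h a = 0 ↔ T.polV a = 0) ∧
    (∀ (N : ℕ) (a : A[X]), ¬ p ∣ N → (∀ x ∈ T.Lam, ∃ y ∈ T.Lam, T.polV a x = N • y) →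
      N ^ 2 ∣ h a)

end

end MG.B2
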