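import Pool.Agent.Lib.MP_33b3f9_ag.MG.B2.Defs

/-!
Elementary rules for the adelic Heisenberg operators.
-/

set_option autoImplicit false
set_option linter.unusedSectionVars false

namespace MG.B2

open M4 M4.B2

open Matrix Polynomial

noncomputable section

variable [Dim]

theorem UA_apply (n : ℕ) (y : VA) (f : VA → ℂ) (x : VA) :
    UA n y f x = psi ((2 * n : ℕ) * EB y x) * f (x + y) := rfl

theorem UA_UA (n : ℕ) (y y' : VA) (f : VA → ℂ) :
    UA n y (UA n y' f) = psi ((2 * n : ℕ) * EB y' y) • UA n (y + y') f := by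
  funext x
  simp only [UA_apply, Pi.smul_apply, smul_eq_mul, ← mul_assoc, ← psi_add, EB_add_left,
    EB_add_right, add_assoc]
  congr 2
  ring

@[simp] theorem UA_zero (n : ℕ) (f : VA → ℂ) : UA n 0 f = f := by
  funext x; simp [UA_apply]

theorem UA_mul (n m : ℕ) (y : VA) (f g : VA → ℂ) :
    UA (n + m) y (f * g) = UA n y f * UA m y g := by
  funext x
  simp only [UA_apply, Pi.mul_apply]
  have : ((2 * (n + m) : ℕ) : Af) * EB y x = (2 * n : ℕ) * EB y x + (2 * m : ℕ) * EB y x := by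
    push_cast; ring
  rw [this, psi_add]; ring

/-- The Heisenberg operator as a linear map. -/
def UAl (n : ℕ) (y : VA) : (VA → ℂ) →ₗ[ℂ] (VA → ℂ) where
  toFun := UA n y
  map_add' f g := by funext x; simp [UA_apply, mul_add]
  map_smul' c f := by funext x; simp [UA_apply, mul_left_comm]

theorem UA_smul (n : ℕ) (y : VA) (c : ℂ) (f : VA → ℂ) : UA n y (c • f) = c • UA n y f :=
  (UAl n y).map_smul c f

theorem UA_nsmul (n : ℕ) (y : VA) (j : ℕ) (f : VA → ℂ) : (UA n y)^[j] f = UA n (j • y) f := by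
  induction j with
  | zero => simp
  | succ j ih =>
    rw [Function.iterate_succ_apply', ih, UA_UA, succ_nsmul, add_comm y]
    have : EB (j • y) y = 0 := by
      rw [← Nat.cast_smul_eq_nsmul Af, EB_smul_left, EB_self, mul_zero]
    rw [this, mul_zero, psi_zero, one_smul]

theorem apply_add_of_UA {n : ℕ} {y : VA} {f : VA → ℂ} {c : ℂ} (h : UA n y f = c • f) (x : VA) :
    f (x + y) = c * psi (-((2 * n : ℕ) * EB y x)) * f x := by
  have h1 := congrFun h x
  rw [UA_apply, Pi.smul_apply, smul_eq_mul] at h1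
  rw [psi_neg, mul_right_comm, ← h1, mul_right_comm, mul_inv_cancel₀ (psi_ne _), one_mul]

variable {ι' : Type} [Fintype ι']

theorem TD0.per' (D : TD0 ι') {n : ℕ} {f : VA → ℂ} (hf : f ∈ D.Γ n) {l : VA} (hl : l ∈ TA)
    (x : VA) : f (x + l) = psi (-((2 * n : ℕ) * EB l x)) * f x := by
  have := apply_add_of_UA (c := 1) (by rw [one_smul]; exact D.per n l hl f hf) x
  rwa [one_mul] at this

theorem TD0.pow_mem (D : TD0 ι') {n : ℕ} {f : VA → ℂ} (hf : f ∈ D.Γ n) (j : ℕ) :
    f ^ j ∈ D.Γ (n * j) := by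
  induction j with
  | zero => simpa using D.one_mem
  | succ j ih => rw [pow_succ, Nat.mul_succ]; exact D.mul_mem _ _ _ _ ih hf

theorem eq_zero_of_psi {a : Af} (h : ∀ q : ℚ, psi (qA q * a) = 1) : a = 0 := by
  refine Af_ext fun l => ?_
  rw [map_zero]
  by_contra h0
  have hp : (1 : ℝ) < l.1 := by exact_mod_cast l.2.one_lt
  obtain ⟨n, hn⟩ := pow_unbounded_of_one_lt ‖cp l a‖⁻¹ hp
  have h1 := psi_eq_one.1 (h ((l.1 : ℚ) ^ n)⁻¹) l
  rw [map_mul, cp_qA, norm_mul] at h1
  push_cast at h1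
  rw [norm_inv, norm_pow, Padic.norm_p, inv_pow, inv_inv] at h1
  have h2 : 0 < ‖cp l a‖ := norm_pos_iff.2 h0
  have := mul_lt_mul_of_pos_right hn h2
  rw [inv_mul_cancel₀ h2.ne'] at this
  linarith

theorem cV_add (l : Nat.Primes) (x y : VA) : cV l (x + y) = cV l x + cV l y := by
  funext i; simp [cV]

theorem cV_sub (l : Nat.Primes) (x y : VA) : cV l (x - y) = cV l x - cV l y := by
  funext i; simp [cV]

theorem cV_qsmul (l : Nat.Primes) (q : ℚ) (x : VA) : cV l (q • x) = (q : ℚ_[l]) • cV l x := by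
  funext i; simp [cV, Rat.smul_def]

theorem cV_nsmul (l : Nat.Primes) (n : ℕ) (x : VA) : cV l (n • x) = (n : ℚ_[l]) • cV l x := by
  funext i; simp [cV]

theorem cV_zsmul (l : Nat.Primes) (n : ℤ) (x : VA) : cV l (n • x) = (n : ℚ_[l]) • cV l x := by
  funext i; simp [cV]

theorem cV_qV (l : Nat.Primes) (q : ν → ℚ) : cV l (qV q) = fun i => (q i : ℚ_[l]) := by
  funext i; simp [cV, qV]

@[simp] theorem cV_iV_self (l : Nat.Primes) (s : ν → ℚ_[l]) : cV l (iV l s) = s := by
  funext i; simp [cV, iV]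

theorem cV_iV_ne {l l' : Nat.Primes} (h : l' ≠ l) (s : ν → ℚ_[l]) : cV l' (iV l s) = 0 := by
  funext i; exact cp_inc_ne h _

theorem cV_Vt {P : Nat.Primes} (x : Vt P) : cV P (x : VA) = 0 := funext x.2

theorem coe_away (P : Nat.Primes) (x : VA) : (away P x : VA) = x - iV P (cV P x) := rfl

theorem cV_away_ne {P l : Nat.Primes} (h : l ≠ P) (x : VA) : cV l (away P x : VA) = cV l x := by
  rw [coe_away, cV_sub, cV_iV_ne h, sub_zero]

theorem away_add_iV (P : Nat.Primes) (x : VA) : (away P x : VA) + iV P (cV P x) = x := by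
  rw [coe_away, sub_add_cancel]

theorem away_coe {P : Nat.Primes} (x : Vt P) : away P (x : VA) = x :=
  Subtype.ext (by rw [coe_away, cV_Vt, map_zero, sub_zero])

theorem cp_EB (l : Nat.Primes) (x y : VA) : cp l (EB x y) = EB (cV l x) (cV l y) := map_EB _ x y

theorem iV_mem_TA {P : Nat.Primes} {s : ν → ℚ_[P]} : iV P s ∈ TA ↔ s ∈ IV P := by
  rw [mem_TA_iff]
  constructor
  · intro h i
    simpa using h P i
  · intro h l i
    by_cases hl : l = P
    · subst hl; simpa using h i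
    · simp [cV_iV_ne hl]

theorem EB_Vt_iV {P : Nat.Primes} (x : Vt P) (s : ν → ℚ_[P]) : EB (x : VA) (iV P s) = 0 :=
  Af_ext fun l => by
    rw [cp_EB, map_zero]
    by_cases hl : l = P
    · subst hl; rw [cV_Vt, EB_zero_left]
    · rw [cV_iV_ne hl, EB_zero_right]

theorem EB_iV {P : Nat.Primes} (s : ν → ℚ_[P]) (x : VA) :
    EB (iV P s) x = inc P (EB s (cV P x)) :=
  Af_ext fun l => by
    rw [cp_EB]
    by_cases hl : l = P
    · subst hl; simp
    · rw [cV_iV_ne hl, EB_zero_left, cp_inc_ne hl]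

theorem rho_iV (r : ∀ l : Nat.Primes, GL ν ℤ_[l]) {P : Nat.Primes} (s : ν → ℚ_[P]) :
    rho r (iV P s) = iV P (mQ (r P) *ᵥ s) :=
  VA_ext fun l => by
    rw [cV_rho]
    by_cases hl : l = P
    · subst hl; simp
    · rw [cV_iV_ne hl, cV_iV_ne hl, mulVec_zero]

theorem coe_rhoV (P : Nat.Primes) (r : ∀ l : Nat.Primes, GL ν ℤ_[l]) (x : Vt P) :
    (rhoV P r x : VA) = rho r x := rfl

end

end MG.B2
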